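import Mathlib
import Pool.Agent.LGO.H.Defs
import Pool.Agent.LGO.Gal.CM
import Pool.Agent.Hhelper14.ZPL.KClosed
import Pool.Agent.Hhelper14.ZPL.Defs
import Pool.Agent.ZPE.Defs

/-!
# LGO/ZF: final assembly of ZPR: definitions (MP_d83ecd_ag)

`V = curve A B` is the closure of the image of `t ↦ (A_i(t) / B_i(t))_i`, `A_i, B_i ∈ Qb[X]` coprime, nonconstant, no
two with a common pole on the projective line (`Gen`).  The types of the points on special subvarieties of codimension
`≥ 2`: `T1` (isogenous triple), `T2` (two disjoint isogenous pairs), `T3` (an isogenous pair and a singular modulus),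
`T4` (two singular moduli); in `T1, T2, T3` the coordinates of the pairs are not CM.
-/

namespace Pool.Agent.LGO.ZF

open Polynomial UpperHalfPlane Pool.Agent.Hhelper14.ZP Pool.Agent.Hhelper14.ZPL

/-- the two rational functions `A / B` and `A' / B'` (in lowest terms) have no common pole on the projective line -/
def NoCommonPole (A B A' B' : Polynomial Qb) : Prop :=
  (∀ z : Qb, B.eval z = 0 → B'.eval z ≠ 0) ∧
    ¬ (B.natDegree < A.natDegree ∧ B'.natDegree < A'.natDegree)

/-- the points `(A_i(t) / B_i(t))_i` of `ℂⁿ`, for the complex numbers `t` which are not poles -/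
def img {n : ℕ} (A B : Fin n → Polynomial Qb) : Set (Fin n → ℂ) :=
  {x | ∃ t : ℂ, ∀ i, (aeval t (B i) : ℂ) ≠ 0 ∧ x i = aeval t (A i) / aeval t (B i)}

/-- the rational curve parametrised by `t ↦ (A_i(t) / B_i(t))_i`: the Zariski closure of `img A B` -/
def curve {n : ℕ} (A B : Fin n → Polynomial Qb) : Set (Fin n → ℂ) :=
  MvPolynomial.zeroLocus ℂ (MvPolynomial.vanishingIdeal ℂ (img A B))

/-- the rational functions `A i / B i` are in lowest terms, nonconstant, and no two have a common pole on the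
projective line -/
structure Gen {n : ℕ} (A B : Fin n → Polynomial Qb) : Prop where
  ne : ∀ i, B i ≠ 0
  cop : ∀ i, IsCoprime (A i) (B i)
  nc : ∀ i, 0 < max (A i).natDegree (B i).natDegree
  nopole : ∀ i j, i ≠ j → NoCommonPole (A i) (B i) (A j) (B j)

/-- finiteness of the points with three isogenous coordinates -/
def T1 {n : ℕ} (V : Set (Fin n → ℂ)) : Prop :=
  ∀ i : Fin 3 → Fin n, Function.Injective i →
    {x ∈ V | (∀ a, NCM (x (i a))) ∧ HeckeRel (x (i 0)) (x (i 1)) ∧ HeckeRel (x (i 0)) (x (i 2))}.Finite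

/-- finiteness of the points with two disjoint pairs of isogenous coordinates -/
def T2 {n : ℕ} (V : Set (Fin n → ℂ)) : Prop :=
  ∀ i : Fin 4 → Fin n, Function.Injective i →
    {x ∈ V | (∀ a, NCM (x (i a))) ∧ HeckeRel (x (i 0)) (x (i 1)) ∧ HeckeRel (x (i 2)) (x (i 3))}.Finite

/-- finiteness of the points with a pair of isogenous coordinates and a singular modulus -/
def T3 {n : ℕ} (V : Set (Fin n → ℂ)) : Prop :=
  ∀ i : Fin 3 → Fin n, Function.Injective i →
    {x ∈ V | NCM (x (i 0)) ∧ NCM (x (i 1)) ∧ HeckeRel (x (i 0)) (x (i 1)) ∧ IsCMVal (x (i 2))}.Finite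

/-- finiteness of the points with two singular moduli -/
def T4 {n : ℕ} (V : Set (Fin n → ℂ)) : Prop :=
  ∀ i : Fin 2 → Fin n, Function.Injective i → {x ∈ V | IsCMVal (x (i 0)) ∧ IsCMVal (x (i 1))}.Finite

/-- the points of `V` on special subvarieties of codimension at least two -/
def Atyp {n : ℕ} (V : Set (Fin n → ℂ)) : Set (Fin n → ℂ) :=
  {x ∈ V | ∃ Z, Pool.Agent.Hhelper14.ZPL.IsSpecial Z ∧ x ∈ Z ∧
    Pool.Agent.Hhelper14.ZPL.dim Z + 2 ≤ (n : WithBot ℕ∞)}

end Pool.Agent.LGO.ZF
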