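import Mathlib
import Pool.Agent.LGO.ZF.Defs
import Pool.Agent.Hhelper14.ZPL.Topo

/-!
# LGO/ZF: the rational curve: irreducible, closed, defined over `Qb`

`zero_or`: for `p ∈ ℂ[x_1..x_n]` the set of the `t` which are not poles with `p(x(t)) = 0` is finite or contains all
these `t`: `p(x(t)) * (∏ B_i(t)) ^ N` is the value at `t` of a polynomial `P ∈ ℂ[T]` (induction on `p`, or the value
of `aeval (A_i / B_i) p ∈ RatFunc ℂ`).
`curve_irred`: `vanishingIdeal (curve A B) = vanishingIdeal (img A B)` (Galois connection); if `p q` vanishes on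
`img A B`, then `p` or `q` has infinitely many zeros `t`, so vanishes on `img A B`; `1` does not vanish (`img A B` is
infinite or at least not empty: finitely many poles).
`curve_kclosed` (`kclosed_iff`, `exists_decomp` in `ZPL/KClosed.lean`): let `p` vanish on `img A B`,
`p = ∑ b_k p_k`, `b_k ∈ ℂ` linearly independent over `Qb`, `p_k ∈ Qb[x]`; for `t ∈ Qb` not a pole `p_k(x(t)) ∈ Qb`, so
`p_k(x(t)) = 0`; infinitely many `t`, so `p_k` vanishes on `img A B` (`zero_or`).
`curve_nc`: `A_i(t) = c B_i(t)` for all `t` implies `A_i = c B_i` (as complex polynomials), against coprimality and `nc`.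
-/

namespace Pool.Agent.LGO.ZF

open Polynomial Pool.Agent.Hhelper14.ZP Pool.Agent.Hhelper14.ZPL

variable {n : ℕ} {A B : Fin n → Polynomial Qb}

theorem img_subset : img A B ⊆ curve A B := subset_closure' _

theorem finite_poles (hB : ∀ i, B i ≠ 0) : {t : ℂ | ∃ i, (aeval t (B i) : ℂ) = 0}.Finite := by
  have h : {t : ℂ | ∃ i, (aeval t (B i) : ℂ) = 0} ⊆ ⋃ i, ((B i).rootSet ℂ : Set ℂ) := by
    rintro t ⟨i, hi⟩
    exact Set.mem_iUnion.2 ⟨i, mem_rootSet.2 ⟨hB i, hi⟩⟩
  exact (Set.finite_iUnion fun i => Polynomial.rootSet_finite (B i) ℂ).subset h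

private theorem CurA_poly (p : MvPolynomial (Fin n) ℂ) : ∃ (N : ℕ) (P : Polynomial ℂ), ∀ t : ℂ,
    (∀ i, (aeval t (B i) : ℂ) ≠ 0) →
    MvPolynomial.eval (fun i => (aeval t (A i) / aeval t (B i) : ℂ)) p *
      (∏ i, (aeval t (B i) : ℂ)) ^ N = P.eval t := by
  classical
  have hQ : ∀ t : ℂ, (∏ i, (B i).map (algebraMap Qb ℂ)).eval t = ∏ i, (aeval t (B i) : ℂ) := by
    intro t
    rw [eval_prod]
    refine Finset.prod_congr rfl fun i _ => ?_
    rw [eval_map_algebraMap]
  induction p using MvPolynomial.induction_on with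
  | C a =>
    refine ⟨0, C a, fun t _ => ?_⟩
    simp
  | add p q hp hq =>
    obtain ⟨N, P, hP⟩ := hp
    obtain ⟨M, Q, hQ'⟩ := hq
    refine ⟨N + M, P * (∏ i, (B i).map (algebraMap Qb ℂ)) ^ M + Q * (∏ i, (B i).map (algebraMap Qb ℂ)) ^ N,
      fun t ht => ?_⟩
    rw [map_add, eval_add, eval_mul, eval_mul, eval_pow, eval_pow, hQ, ← hP t ht, ← hQ' t ht]
    ring
  | mul_X p j hp =>
    obtain ⟨N, P, hP⟩ := hp
    refine ⟨N + 1, P * (A j).map (algebraMap Qb ℂ) *
      ∏ i ∈ Finset.univ.erase j, (B i).map (algebraMap Qb ℂ), fun t ht => ?_⟩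
    rw [map_mul, MvPolynomial.eval_X, eval_mul, eval_mul, eval_map_algebraMap, ← hP t ht, eval_prod]
    have h1 : ∏ i ∈ Finset.univ.erase j, ((B i).map (algebraMap Qb ℂ)).eval t =
        ∏ i ∈ Finset.univ.erase j, (aeval t (B i) : ℂ) :=
      Finset.prod_congr rfl fun i _ => by rw [eval_map_algebraMap]
    rw [h1]
    have h2 : ∏ i, (aeval t (B i) : ℂ) = (aeval t (B j) : ℂ) * ∏ i ∈ Finset.univ.erase j, (aeval t (B i) : ℂ) :=
      (Finset.mul_prod_erase _ _ (Finset.mem_univ j)).symm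
    have h3 := ht j
    have h4 : (aeval t (A j) / aeval t (B j) : ℂ) * (aeval t (B j) : ℂ) = aeval t (A j) := div_mul_cancel₀ _ h3
    calc MvPolynomial.eval (fun i => (aeval t (A i) / aeval t (B i) : ℂ)) p * (aeval t (A j) / aeval t (B j)) *
          (∏ i, (aeval t (B i) : ℂ)) ^ (N + 1)
        = MvPolynomial.eval (fun i => (aeval t (A i) / aeval t (B i) : ℂ)) p * (∏ i, (aeval t (B i) : ℂ)) ^ N *
          ((aeval t (A j) / aeval t (B j)) * (∏ i, (aeval t (B i) : ℂ))) := by ring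
      _ = MvPolynomial.eval (fun i => (aeval t (A i) / aeval t (B i) : ℂ)) p * (∏ i, (aeval t (B i) : ℂ)) ^ N *
          (((aeval t (A j) / aeval t (B j)) * (aeval t (B j) : ℂ)) *
            ∏ i ∈ Finset.univ.erase j, (aeval t (B i) : ℂ)) := by
          congr 1
          rw [h2]
          ring
      _ = _ := by rw [h4]; ring

theorem zero_or (hB : ∀ i, B i ≠ 0) (p : MvPolynomial (Fin n) ℂ) :
    {t : ℂ | (∀ i, (aeval t (B i) : ℂ) ≠ 0) ∧
      MvPolynomial.eval (fun i => (aeval t (A i) / aeval t (B i) : ℂ)) p = 0}.Finite ∨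
    ∀ x ∈ img A B, MvPolynomial.eval x p = 0 := by
  obtain ⟨N, P, hP⟩ := CurA_poly (A := A) (B := B) p
  by_cases h0 : P = 0
  · right
    rintro x ⟨t, ht⟩
    have hx : x = fun i => (aeval t (A i) / aeval t (B i) : ℂ) := funext fun i => (ht i).2
    have h1 := hP t fun i => (ht i).1
    rw [h0, eval_zero] at h1
    rw [hx]
    refine (mul_eq_zero.1 h1).resolve_right (pow_ne_zero _ ?_)
    exact Finset.prod_ne_zero_iff.2 fun i _ => (ht i).1
  · left
    refine (Polynomial.rootSet_finite P ℂ).subset ?_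
    rintro t ⟨ht, h2⟩
    refine mem_rootSet.2 ⟨h0, ?_⟩
    have h1 := hP t ht
    rw [h2, zero_mul] at h1
    rw [coe_aeval_eq_eval]
    exact h1.symm

private theorem CurA_inf (hB : ∀ i, B i ≠ 0) : {t : ℂ | ∃ i, (aeval t (B i) : ℂ) = 0}ᶜ.Infinite :=
  (finite_poles hB).infinite_compl

theorem curve_irred (hB : ∀ i, B i ≠ 0) : Pool.Agent.Hhelper14.ZPL.IsIrredClosed (curve A B) := by
  refine irredClosed_closure ⟨?_, ?_⟩
  · intro h
    obtain ⟨t, ht⟩ := (CurA_inf hB).nonempty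
    have ht' : ∀ i, (aeval t (B i) : ℂ) ≠ 0 := fun i hi => ht ⟨i, hi⟩
    rw [Ideal.eq_top_iff_one, MvPolynomial.mem_vanishingIdeal_iff] at h
    have := h (fun i => (aeval t (A i) / aeval t (B i) : ℂ)) ⟨t, fun i => ⟨ht' i, rfl⟩⟩
    simp at this
  · intro p q hpq
    rw [MvPolynomial.mem_vanishingIdeal_iff] at hpq
    by_contra hc
    push Not at hc
    have hp : {t : ℂ | (∀ i, (aeval t (B i) : ℂ) ≠ 0) ∧
        MvPolynomial.eval (fun i => (aeval t (A i) / aeval t (B i) : ℂ)) p = 0}.Finite := by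
      refine (zero_or hB p).resolve_right fun h => hc.1 ?_
      rw [MvPolynomial.mem_vanishingIdeal_iff]
      intro x hx
      rw [MvPolynomial.aeval_eq_eval]
      exact h x hx
    have hq : {t : ℂ | (∀ i, (aeval t (B i) : ℂ) ≠ 0) ∧
        MvPolynomial.eval (fun i => (aeval t (A i) / aeval t (B i) : ℂ)) q = 0}.Finite := by
      refine (zero_or hB q).resolve_right fun h => hc.2 ?_
      rw [MvPolynomial.mem_vanishingIdeal_iff]
      intro x hx
      rw [MvPolynomial.aeval_eq_eval]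
      exact h x hx
    have hu := ((hp.union hq).union (finite_poles hB))
    refine Set.infinite_univ (hu.subset ?_)
    intro t _
    by_cases ht : ∃ i, (aeval t (B i) : ℂ) = 0
    · exact Or.inr ht
    · left
      have ht' : ∀ i, (aeval t (B i) : ℂ) ≠ 0 := fun i hi => ht ⟨i, hi⟩
      have h1 := hpq (fun i => (aeval t (A i) / aeval t (B i) : ℂ)) ⟨t, fun i => ⟨ht' i, rfl⟩⟩
      rw [MvPolynomial.aeval_eq_eval, map_mul] at h1
      rcases mul_eq_zero.1 h1 with h2 | h2
      · exact Or.inl ⟨ht', h2⟩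
      · exact Or.inr ⟨ht', h2⟩

private theorem CurA_qb (p : MvPolynomial (Fin n) Qb) (z : Qb) (hz : ∀ i, (aeval (z : ℂ) (B i) : ℂ) ≠ 0) :
    ∃ v : Qb, (MvPolynomial.aeval (fun i => (aeval (z : ℂ) (A i) / aeval (z : ℂ) (B i) : ℂ)) p : ℂ) = (v : ℂ) := by
  have h1 : ∀ q : Polynomial Qb, (aeval (z : ℂ) q : ℂ) = ((q.eval z : Qb) : ℂ) := by
    intro q
    have := Polynomial.aeval_algebraMap_apply ℂ z q
    rw [coe_aeval_eq_eval] at this
    exact this
  refine ⟨MvPolynomial.aeval (fun i => (A i).eval z / (B i).eval z) p, ?_⟩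
  have h2 : (fun i => (aeval (z : ℂ) (A i) / aeval (z : ℂ) (B i) : ℂ)) =
      fun i => (((A i).eval z / (B i).eval z : Qb) : ℂ) := by
    funext i
    rw [h1, h1]
    exact (map_div₀ (algebraMap Qb ℂ) _ _).symm
  rw [h2]
  exact aeval_coe _ p

theorem curve_kclosed (hB : ∀ i, B i ≠ 0) : KClosed (curve A B) := by
  classical
  rw [kclosed_iff]
  intro x hx
  show x ∈ MvPolynomial.zeroLocus ℂ (MvPolynomial.vanishingIdeal ℂ (img A B))
  rw [MvPolynomial.mem_zeroLocus_iff]
  intro p hp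
  obtain ⟨s, g, hg⟩ := exists_decomp p
  set b := Module.Basis.ofVectorSpace Qb ℂ with hb
  have key : ∀ i ∈ s, ∀ y ∈ img A B, (MvPolynomial.aeval y (g i) : ℂ) = 0 := by
    intro i hi
    have hinf : ¬ {t : ℂ | (∀ i, (aeval t (B i) : ℂ) ≠ 0) ∧ MvPolynomial.eval
        (fun i => (aeval t (A i) / aeval t (B i) : ℂ)) (MvPolynomial.map (algebraMap Qb ℂ) (g i)) = 0}.Finite := by
      intro hfin
      have h1 : (Set.range ((↑) : Qb → ℂ)).Infinite := by
        refine Set.infinite_range_of_injective Subtype.val_injective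
      refine h1 ((hfin.union (finite_poles hB)).subset ?_)
      rintro _ ⟨z, rfl⟩
      by_cases ht : ∃ i, (aeval (z : ℂ) (B i) : ℂ) = 0
      · exact Or.inr ht
      · left
        have ht' : ∀ i, (aeval (z : ℂ) (B i) : ℂ) ≠ 0 := fun i hi => ht ⟨i, hi⟩
        refine ⟨ht', ?_⟩
        have h2 := MvPolynomial.mem_vanishingIdeal_iff.1 hp
          (fun i => (aeval (z : ℂ) (A i) / aeval (z : ℂ) (B i) : ℂ)) ⟨(z : ℂ), fun i => ⟨ht' i, rfl⟩⟩
        have h3 : ∀ i, ∃ v : Qb, (MvPolynomial.aeval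
            (fun i => (aeval (z : ℂ) (A i) / aeval (z : ℂ) (B i) : ℂ)) (g i) : ℂ) = (v : ℂ) :=
          fun i => CurA_qb (g i) z ht'
        choose v hv using h3
        rw [hg, map_sum] at h2
        have h4 : ∑ i ∈ s, v i • b i = 0 := by
          rw [← h2]
          refine Finset.sum_congr rfl fun i _ => ?_
          rw [map_mul, MvPolynomial.aeval_C, aeval_map_Qb, hv i, Algebra.smul_def]
          exact mul_comm _ _
        have h5 := linearIndependent_iff'.1 b.linearIndependent s v h4 i hi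
        rw [← MvPolynomial.aeval_eq_eval, aeval_map_Qb, hv i, h5]
        rfl
    intro y hy
    have h6 := (zero_or (A := A) hB (MvPolynomial.map (algebraMap Qb ℂ) (g i))).resolve_left hinf y hy
    rw [← MvPolynomial.aeval_eq_eval, aeval_map_Qb] at h6
    exact h6
  rw [hg, map_sum]
  refine Finset.sum_eq_zero fun i hi => ?_
  rw [map_mul, aeval_map_Qb]
  have h7 : g i ∈ (MvPolynomial.vanishingIdeal Qb (curve A B) : Ideal (MvPolynomial (Fin n) Qb)) := by
    rw [MvPolynomial.mem_vanishingIdeal_iff]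
    intro y hy
    have h8 : MvPolynomial.map (algebraMap Qb ℂ) (g i) ∈
        (MvPolynomial.vanishingIdeal ℂ (img A B) : Ideal (MvPolynomial (Fin n) ℂ)) := by
      rw [MvPolynomial.mem_vanishingIdeal_iff]
      intro w hw
      rw [aeval_map_Qb]
      exact key i hi w hw
    have h9 := (MvPolynomial.mem_zeroLocus_iff.1 hy) _ h8
    rwa [aeval_map_Qb] at h9
  rw [hx _ h7, mul_zero]

theorem curve_nc (h : Gen A B) (i : Fin n) (c : ℂ) : ∃ x ∈ curve A B, x i ≠ c := by
  by_contra hc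
  push Not at hc
  have h1 : (A i).map (algebraMap Qb ℂ) - C c * (B i).map (algebraMap Qb ℂ) = 0 := by
    by_contra hne
    refine CurA_inf h.ne ((Polynomial.rootSet_finite
      ((A i).map (algebraMap Qb ℂ) - C c * (B i).map (algebraMap Qb ℂ)) ℂ).subset ?_)
    intro t ht
    have ht' : ∀ i, (aeval t (B i) : ℂ) ≠ 0 := fun i hi => ht ⟨i, hi⟩
    refine mem_rootSet.2 ⟨hne, ?_⟩
    have h2 := hc (fun i => (aeval t (A i) / aeval t (B i) : ℂ)) (img_subset ⟨t, fun i => ⟨ht' i, rfl⟩⟩)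
    have h3 : (aeval t (A i) : ℂ) = c * aeval t (B i) := by
      rw [← h2]
      exact (div_mul_cancel₀ _ (ht' i)).symm
    rw [coe_aeval_eq_eval, eval_sub, eval_mul, eval_C, eval_map_algebraMap, eval_map_algebraMap, h3, sub_self]
  have h2 : (A i).map (algebraMap Qb ℂ) = C c * (B i).map (algebraMap Qb ℂ) := sub_eq_zero.1 h1
  have h3 : IsCoprime ((A i).map (algebraMap Qb ℂ)) ((B i).map (algebraMap Qb ℂ)) :=
    (h.cop i).map (Polynomial.mapRingHom (algebraMap Qb ℂ))
  have h4 : IsUnit ((B i).map (algebraMap Qb ℂ)) := by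
    refine h3.isUnit_of_dvd' ?_ dvd_rfl
    rw [h2]
    exact dvd_mul_left _ _
  have h5 : (B i).natDegree = 0 := by
    have := natDegree_eq_zero_of_isUnit h4
    rwa [natDegree_map] at this
  have h6 : (A i).natDegree = 0 := by
    have h7 : ((A i).map (algebraMap Qb ℂ)).natDegree ≤ ((B i).map (algebraMap Qb ℂ)).natDegree := by
      rw [h2]
      exact natDegree_C_mul_le _ _
    rw [natDegree_map, natDegree_map, h5] at h7
    omega
  have h8 := h.nc i
  rw [h5, h6] at h8
  simp at h8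

end Pool.Agent.LGO.ZF
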