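import Mathlib
import Pool.Agent.LGO.ZF.CurA
import Pool.Agent.Hhelper14.ZPL.Proj
import Pool.Agent.Hhelper14.ZPL.Dim
import Pool.Agent.Hhelper14.ZP.Gen

/-!
# LGO/ZF: the rational curve has dimension one

`exists_basis (vanishingIdeal ℂ W)`: a finite set `I` of coordinates, a transcendence basis modulo the prime ideal;
`krull_eq_card`: `dim = I.card` (see `dim_eq_nat` in `ZPE/Crit.lean`).
`dim ≥ 1`: `one_le_dim` in `ZPL/Topo.lean`: two different points of
`curve A B`, by `curve_nc`.
`I.card ≤ 1`: two coordinates are algebraically dependent: the polynomials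
`∑_{k, l ≤ N} c_kl A_a^k B_a^(N - k) A_b^l B_b^(N - l)` have degree `≤ 2 N D`, so for `(N + 1)^2 > 2 N D + 1` there is
`c ≠ 0` with `∑ c_kl x_a^k x_b^l = 0` on `img A B`.
-/

namespace Pool.Agent.LGO.ZF

open Polynomial Pool.Agent.Hhelper14.ZP Pool.Agent.Hhelper14.ZPL

variable {n : ℕ} {A B : Fin n → Polynomial Qb}

/-- two coordinates are algebraically dependent -/
private lemma CurB_dep (A B : Fin n → Polynomial Qb) (a b : Fin n) :
    ∃ (N : ℕ) (c : Fin (N + 1) × Fin (N + 1) → Qb), c ≠ 0 ∧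
      ∀ t : ℂ, (∀ i, (aeval t (B i) : ℂ) ≠ 0) →
        ∑ kl, ((c kl : Qb) : ℂ) * ((aeval t (A a) / aeval t (B a) : ℂ) ^ (kl.1 : ℕ) *
          (aeval t (A b) / aeval t (B b) : ℂ) ^ (kl.2 : ℕ)) = 0 := by
  obtain ⟨D, hD0, h1, h2, h3, h4⟩ : ∃ D : ℕ, 0 < D ∧ (A a).natDegree ≤ D ∧ (B a).natDegree ≤ D ∧
      (A b).natDegree ≤ D ∧ (B b).natDegree ≤ D :=
    ⟨(A a).natDegree + (B a).natDegree + (A b).natDegree + (B b).natDegree + 1, by omega,
      by omega, by omega, by omega, by omega⟩
  let N := 2 * D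
  let M := 2 * N * D + 1
  let P : Fin (N + 1) × Fin (N + 1) → Polynomial Qb := fun kl =>
    A a ^ (kl.1 : ℕ) * B a ^ (N - kl.1) * (A b ^ (kl.2 : ℕ) * B b ^ (N - kl.2))
  have hpair : ∀ (p q : Polynomial Qb) (k : Fin (N + 1)), p.natDegree ≤ D → q.natDegree ≤ D →
      (p ^ (k : ℕ) * q ^ (N - k)).natDegree ≤ N * D := by
    intro p q k hp hq
    have hk : (k : ℕ) ≤ N := Nat.lt_succ_iff.mp k.2
    calc (p ^ (k : ℕ) * q ^ (N - k)).natDegree
        ≤ (p ^ (k : ℕ)).natDegree + (q ^ (N - k)).natDegree := natDegree_mul_le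
      _ ≤ k * D + (N - k) * D := by
          apply Nat.add_le_add
          · exact (natDegree_pow_le).trans (Nat.mul_le_mul_left _ hp)
          · exact (natDegree_pow_le).trans (Nat.mul_le_mul_left _ hq)
      _ = N * D := by rw [← Nat.add_mul, Nat.add_sub_cancel' hk]
  have hP : ∀ kl, P kl ∈ degreeLT Qb M := by
    intro kl
    rw [mem_degreeLT]
    have hle : (P kl).natDegree ≤ 2 * N * D := by
      calc (P kl).natDegree ≤ N * D + N * D :=
            (natDegree_mul_le).trans (Nat.add_le_add (hpair _ _ _ h1 h2) (hpair _ _ _ h3 h4))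
        _ = 2 * N * D := by ring
    refine lt_of_le_of_lt degree_le_natDegree ?_
    have : (P kl).natDegree < M := by
      simp only [M]
      omega
    exact_mod_cast this
  let f : (Fin (N + 1) × Fin (N + 1) → Qb) →ₗ[Qb] degreeLT Qb M :=
    Fintype.linearCombination Qb (fun kl => (⟨P kl, hP kl⟩ : degreeLT Qb M))
  have hfin : Module.finrank Qb (degreeLT Qb M) <
      Module.finrank Qb (Fin (N + 1) × Fin (N + 1) → Qb) := by
    rw [Module.finrank_fintype_fun_eq_card, (degreeLTEquiv Qb M).finrank_eq, Module.finrank_fin_fun,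
      Fintype.card_prod, Fintype.card_fin]
    simp only [M, N]
    nlinarith
  have hfd : Module.Finite Qb (degreeLT Qb M) :=
    Module.Finite.equiv (degreeLTEquiv Qb M).symm
  have hker := LinearMap.ker_ne_bot_of_finrank_lt (f := f) hfin
  obtain ⟨c, hc, hc0⟩ := Submodule.exists_mem_ne_zero_of_ne_bot hker
  refine ⟨N, c, hc0, fun t ht => ?_⟩
  have hsum : ∑ kl, c kl • P kl = 0 := by
    have h5 : f c = 0 := hc
    have h6 := congrArg (Subtype.val) h5
    simpa [f, Fintype.linearCombination_apply] using h6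
  have hev := congrArg (aeval t : Polynomial Qb → ℂ) hsum
  rw [map_sum, map_zero] at hev
  have hBa := ht a
  have hBb := ht b
  have key : ∀ kl : Fin (N + 1) × Fin (N + 1),
      ((c kl : Qb) : ℂ) * ((aeval t (A a) / aeval t (B a) : ℂ) ^ (kl.1 : ℕ) *
          (aeval t (A b) / aeval t (B b) : ℂ) ^ (kl.2 : ℕ)) =
        (aeval t (c kl • P kl) : ℂ) * ((aeval t (B a) : ℂ) ^ N * (aeval t (B b) : ℂ) ^ N)⁻¹ := by
    intro kl
    have hk : (kl.1 : ℕ) ≤ N := Nat.lt_succ_iff.mp kl.1.2
    have hl : (kl.2 : ℕ) ≤ N := Nat.lt_succ_iff.mp kl.2.2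
    have e1 : (aeval t (B a) : ℂ) ^ N = (aeval t (B a) : ℂ) ^ (kl.1 : ℕ) *
        (aeval t (B a) : ℂ) ^ (N - kl.1) := by rw [← pow_add, Nat.add_sub_cancel' hk]
    have e2 : (aeval t (B b) : ℂ) ^ N = (aeval t (B b) : ℂ) ^ (kl.2 : ℕ) *
        (aeval t (B b) : ℂ) ^ (N - kl.2) := by rw [← pow_add, Nat.add_sub_cancel' hl]
    rw [e1, e2, map_smul]
    simp only [P, map_mul, map_pow, Algebra.smul_def]
    have e3 : (algebraMap Qb ℂ) (c kl) = ((c kl : Qb) : ℂ) := rfl
    rw [e3, div_pow, div_pow]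
    field_simp
  rw [Finset.sum_congr rfl fun kl _ => key kl, ← Finset.sum_mul, hev, zero_mul]

theorem curve_dim (h : Gen A B) (hn : 0 < n) : Pool.Agent.Hhelper14.ZPL.dim (curve A B) = 1 := by
  have hirr := curve_irred (A := A) h.ne
  obtain ⟨x, hx, -⟩ := curve_nc h ⟨0, hn⟩ 0
  obtain ⟨y, hy, hyx⟩ := curve_nc h ⟨0, hn⟩ (x ⟨0, hn⟩)
  have hge : 1 ≤ Pool.Agent.Hhelper14.ZPL.dim (curve A B) := one_le_dim hirr hx hy (fun e => hyx (by rw [e]))
  refine le_antisymm ?_ hge
  have hp := hirr.1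
  obtain ⟨I, hI⟩ := exists_basis (MvPolynomial.vanishingIdeal ℂ (curve A B))
  have hcard : I.card ≤ 1 := by
    rw [Finset.card_le_one]
    intro a ha b hb
    by_contra hab
    obtain ⟨N, c, hc, hrel⟩ := CurB_dep A B a b
    -- the relation as a polynomial in two variables
    let mon : Fin (N + 1) × Fin (N + 1) → (Fin 2 →₀ ℕ) := fun kl =>
      Finsupp.single 0 (kl.1 : ℕ) + Finsupp.single 1 (kl.2 : ℕ)
    have hmon : Function.Injective mon := by
      intro u v huv
      have h0 := DFunLike.congr_fun huv 0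
      have h1 := DFunLike.congr_fun huv 1
      simp [mon] at h0 h1
      exact Prod.ext (Fin.ext h0) (Fin.ext h1)
    let q : MvPolynomial (Fin 2) ℂ := ∑ kl, MvPolynomial.monomial (mon kl) ((c kl : Qb) : ℂ)
    have hevq : ∀ {R : Type} [CommRing R] [Algebra ℂ R] (z : Fin 2 → R),
        MvPolynomial.aeval z q = ∑ kl, algebraMap ℂ R ((c kl : Qb) : ℂ) *
          (z 0 ^ (kl.1 : ℕ) * z 1 ^ (kl.2 : ℕ)) := by
      intro R _ _ z
      simp only [q, map_sum]
      refine Finset.sum_congr rfl fun kl _ => ?_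
      rw [MvPolynomial.aeval_monomial]
      congr 1
      simp only [mon]
      rw [Finsupp.prod_add_index' (fun _ => pow_zero _) (fun _ _ _ => pow_add _ _ _)]
      have e1 : (Finsupp.single (0 : Fin 2) (kl.1 : ℕ)).prod (fun i e => z i ^ e) =
          z 0 ^ (kl.1 : ℕ) := Finsupp.prod_single_index (pow_zero _)
      have e2 : (Finsupp.single (1 : Fin 2) (kl.2 : ℕ)).prod (fun i e => z i ^ e) =
          z 1 ^ (kl.2 : ℕ) := Finsupp.prod_single_index (pow_zero _)
      exact congrArg₂ (· * ·) e1 e2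
    let g : Fin 2 → I := ![⟨a, ha⟩, ⟨b, hb⟩]
    have hg : Function.Injective g := by
      intro i j hij
      fin_cases i <;> fin_cases j
      · rfl
      · exact absurd (congrArg Subtype.val hij) hab
      · exact absurd (congrArg Subtype.val hij).symm hab
      · rfl
    have hind := hI.1.comp g hg
    have hq0 : q = 0 := by
      apply (algebraicIndependent_iff.mp hind) q
      rw [hevq]
      -- the polynomial in `n` variables
      let p : MvPolynomial (Fin n) ℂ := ∑ kl, MvPolynomial.C ((c kl : Qb) : ℂ) *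
        (MvPolynomial.X a ^ (kl.1 : ℕ) * MvPolynomial.X b ^ (kl.2 : ℕ))
      have hp0 : p ∈ MvPolynomial.vanishingIdeal ℂ (img A B) := by
        rw [MvPolynomial.mem_vanishingIdeal_iff]
        rintro z ⟨t, ht⟩
        have h5 := hrel t (fun i => (ht i).1)
        simp only [p, map_sum, map_mul, map_pow, MvPolynomial.aeval_X, MvPolynomial.aeval_C]
        rw [(ht a).2, (ht b).2]
        exact h5
      have hp1 : p ∈ MvPolynomial.vanishingIdeal ℂ (curve A B) := by
        rw [MvPolynomial.mem_vanishingIdeal_iff]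
        intro z hz
        exact (MvPolynomial.mem_zeroLocus_iff.mp hz) p hp0
      have h6 := Ideal.Quotient.eq_zero_iff_mem.mpr hp1
      rw [← h6]
      simp only [p, map_sum, map_mul, map_pow]
      rfl
    apply hc
    funext kl
    have h7 := congrArg (MvPolynomial.coeff (mon kl)) hq0
    simp only [q, MvPolynomial.coeff_sum, MvPolynomial.coeff_monomial, MvPolynomial.coeff_zero] at h7
    rw [Finset.sum_eq_single kl (fun v _ hv => if_neg fun e => hv (hmon e))
      (fun hkl => absurd (Finset.mem_univ _) hkl), if_pos rfl] at h7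
    exact Subtype.ext h7
  have hk := krull_eq_card hI
  change ringKrullDim (MvPolynomial (Fin n) ℂ ⧸ MvPolynomial.vanishingIdeal ℂ (curve A B)) ≤ 1
  rw [hk, Nat.card_eq_fintype_card, Fintype.card_coe]
  exact_mod_cast hcard

end Pool.Agent.LGO.ZF
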