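import Mathlib
import Pool.Agent.LGO.ZF.CurA
import Pool.Agent.LGO.ZF.CurB
import Pool.Agent.LGO.Gal.Fin

/-!
# LGO/ZF: all but finitely many points of the closure of a rational curve are values of the parametrisation

Fix a coordinate `0`, `D = max deg`, `a`, `b ∈ Qb` the coefficients of `T^D` in `A_0`, `B_0` (not both `0`).
`E = {x ∈ V | a = x_0 b}` is finite (`finite_inter` in `LGO/Gal/Fin.lean`, `curve_nc`, `curve_dim`).  Let `x ∈ V`,
`a ≠ x_0 b`.  `R` = the subring `ℂ[x_i, 1 / (a - x_0 b)]` of `ℂ(T)` (`x_i = A_i / B_i`), `x` defines a homomorphism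
`φ : R → ℂ` (the ideal of `V` is the kernel of `ℂ[X_1..X_n] → ℂ(T)`); `T` is integral over `R`:
`A_0(T) - x_0 B_0(T) = 0` has the unit `a - x_0 b` as leading coefficient.  So `φ` extends to `R[T] → ℂ`
(`Ideal.exists_ideal_over_prime_of_isIntegral`, and an algebraic extension of `ℂ` is `ℂ`), `T ↦ t`; the relations
`x_i B_i(T) = A_i(T)` give `x_i B_i(t) = A_i(t)`, and `B_i(t) ≠ 0` by the Bezout identity of `A_i`, `B_i`.
(Alternative without rings: the resultant in `T` of `A_0 - X_0 B_0` and `∑ u_i (A_i - X_i B_i)` vanishes on `V` for all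
`u ∈ ℂⁿ`; if `a ≠ x_0 b` then for every `u` some root `t` of `A_0 - x_0 B_0` is a root of
`∑ u_i (A_i - x_i B_i)`; `ℂⁿ` is not a finite union of proper subspaces, so one root `t` works for all `u`.)
-/

namespace Pool.Agent.LGO.ZF

open Polynomial Pool.Agent.Hhelper14.ZP Pool.Agent.Hhelper14.ZPL

variable {n : ℕ} {A B : Fin n → Polynomial Qb}

/-- polynomials in one variable over `ℂ` have a common root or generate the unit ideal -/
theorem common_root_or {ι : Type*} [Fintype ι] (g : ι → Polynomial ℂ) :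
    (∃ t : ℂ, ∀ i, (g i).eval t = 0) ∨ ∃ h : ι → Polynomial ℂ, ∑ i, h i * g i = 1 := by
  classical
  obtain ⟨d, hd⟩ := (IsPrincipalIdealRing.principal (Ideal.span (Set.range g))).principal
  have hd' : Ideal.span (Set.range g) = Ideal.span {d} := hd
  have hdvd : ∀ i, d ∣ g i := fun i => by
    rw [← Ideal.mem_span_singleton, ← hd']
    exact Ideal.subset_span ⟨i, rfl⟩
  by_cases hu : IsUnit d
  · right
    have h1 : (1 : Polynomial ℂ) ∈ Ideal.span (Set.range g) := by
      rw [hd', Ideal.span_singleton_eq_top.mpr hu]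
      exact Submodule.mem_top
    obtain ⟨c, hc⟩ := (Ideal.mem_span_range_iff_exists_fun).mp h1
    exact ⟨c, hc⟩
  · left
    by_cases h0 : d = 0
    · refine ⟨0, fun i => ?_⟩
      have := hdvd i
      rw [h0, zero_dvd_iff] at this
      rw [this, eval_zero]
    · have hdeg : d.degree ≠ 0 := by
        intro h
        exact hu (isUnit_iff_degree_eq_zero.mpr h)
      obtain ⟨t, ht⟩ := IsAlgClosed.exists_root d hdeg
      refine ⟨t, fun i => ?_⟩
      obtain ⟨e, he⟩ := hdvd i
      rw [he, eval_mul, ht.eq_zero, zero_mul]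

/-- the point `x` of the curve is a value of the parametrisation if the leading coefficient of
`A_i - x_i B_i` does not drop for some `i` -/
theorem curve_par_aux (h : Gen A B) (i₀ : Fin n) {x : Fin n → ℂ} (hx : x ∈ curve A B)
    (hlc : algebraMap Qb ℂ ((A i₀).coeff (max (A i₀).natDegree (B i₀).natDegree)) ≠
      x i₀ * algebraMap Qb ℂ ((B i₀).coeff (max (A i₀).natDegree (B i₀).natDegree))) :
    ∃ t : ℂ, ∀ i, (aeval t (B i) : ℂ) ≠ 0 ∧ x i * aeval t (B i) = aeval t (A i) := by
  classical
  set D := max (A i₀).natDegree (B i₀).natDegree with hD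
  set a : Fin n → Polynomial ℂ := fun i => (A i).map (algebraMap Qb ℂ) with ha
  set b : Fin n → Polynomial ℂ := fun i => (B i).map (algebraMap Qb ℂ) with hb
  have haev : ∀ i (t : ℂ), (a i).eval t = aeval t (A i) := fun i t => by
    rw [ha, eval_map_algebraMap]
  have hbev : ∀ i (t : ℂ), (b i).eval t = aeval t (B i) := fun i t => by
    rw [hb, eval_map_algebraMap]
  rcases common_root_or (fun i => a i - C (x i) * b i) with ⟨t, ht⟩ | ⟨g, hg⟩
  · refine ⟨t, fun i => ?_⟩
    have h1 : x i * aeval t (B i) = (aeval t (A i) : ℂ) := by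
      have := ht i
      simp only [eval_sub, eval_mul, eval_C, haev, hbev] at this
      exact (sub_eq_zero.mp this).symm
    refine ⟨fun h0 => ?_, h1⟩
    rw [h0, mul_zero] at h1
    obtain ⟨u, v, huv⟩ := h.cop i
    have := congrArg (fun p => (aeval t p : ℂ)) huv
    simp only [map_add, map_mul, map_one, h0, ← h1, mul_zero, add_zero] at this
    exact zero_ne_one this
  · exfalso
    set F : Polynomial (MvPolynomial (Fin n) ℂ) := (a i₀).map MvPolynomial.C -
      C (MvPolynomial.X i₀) * (b i₀).map MvPolynomial.C with hF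
    set G : Polynomial (MvPolynomial (Fin n) ℂ) := ∑ i, (g i).map MvPolynomial.C *
      ((a i).map MvPolynomial.C - C (MvPolynomial.X i) * (b i).map MvPolynomial.C) with hG
    set R := resultant F G D G.natDegree with hR
    have hmapC : ∀ (y : Fin n → ℂ) (p : Polynomial ℂ),
        (p.map (MvPolynomial.C : ℂ →+* MvPolynomial (Fin n) ℂ)).map (MvPolynomial.eval y) = p := by
      intro y p
      rw [map_map]
      have : (MvPolynomial.eval y).comp MvPolynomial.C = RingHom.id ℂ := by
        ext z
        · simp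
      rw [this, map_id]
    have hFy : ∀ y : Fin n → ℂ, F.map (MvPolynomial.eval y) = a i₀ - C (y i₀) * b i₀ := by
      intro y
      rw [hF, Polynomial.map_sub, Polynomial.map_mul, map_C, hmapC, hmapC, MvPolynomial.eval_X]
    have hGy : ∀ y : Fin n → ℂ, G.map (MvPolynomial.eval y) =
        ∑ i, g i * (a i - C (y i) * b i) := by
      intro y
      rw [hG, Polynomial.map_sum]
      refine Finset.sum_congr rfl fun i _ => ?_
      rw [Polynomial.map_mul, Polynomial.map_sub, Polynomial.map_mul, map_C, hmapC, hmapC, hmapC,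
        MvPolynomial.eval_X]
    have hRy : ∀ y : Fin n → ℂ, MvPolynomial.eval y R = resultant (a i₀ - C (y i₀) * b i₀)
        (∑ i, g i * (a i - C (y i) * b i)) D G.natDegree := by
      intro y
      rw [hR, ← resultant_map_map, hFy, hGy]
    have hFdeg : ∀ y : Fin n → ℂ, (a i₀ - C (y i₀) * b i₀).natDegree ≤ D := by
      intro y
      refine (natDegree_sub_le _ _).trans (max_le ?_ ?_)
      · exact natDegree_map_le.trans (le_max_left _ _)
      · exact (natDegree_C_mul_le _ _).trans (natDegree_map_le.trans (le_max_right _ _))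
    have hvan : R ∈ MvPolynomial.vanishingIdeal ℂ (img A B) := by
      rw [MvPolynomial.mem_vanishingIdeal_iff]
      rintro y ⟨t, ht⟩
      have hy : ∀ i, (a i - C (y i) * b i).eval t = 0 := by
        intro i
        obtain ⟨h1, h2⟩ := ht i
        rw [eval_sub, eval_mul, eval_C, haev, hbev, h2, div_mul_cancel₀ _ h1, sub_self]
      have hGdeg : (∑ i, g i * (a i - C (y i) * b i)).natDegree ≤ G.natDegree := by
        rw [← hGy y]
        exact natDegree_map_le
      obtain ⟨p, q, -, -, hpq⟩ := exists_mul_add_mul_eq_C_resultant _ _ (hFdeg y) hGdeg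
        (Or.inl (h.nc i₀).ne')
      have h3 := congrArg (fun p => p.eval t) hpq
      simp only [eval_add, eval_mul, eval_C, eval_finsetSum, hy, mul_zero, zero_mul,
        Finset.sum_const_zero, add_zero] at h3
      rw [MvPolynomial.aeval_eq_eval, hRy]
      exact h3.symm
    have hxR : MvPolynomial.eval x R = 0 := by
      have := hx R hvan
      rwa [MvPolynomial.aeval_eq_eval] at this
    rw [hRy, hg, resultant_one_right] at hxR
    have h5 : (a i₀ - C (x i₀) * b i₀).coeff D = 0 := eq_zero_of_pow_eq_zero hxR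
    rw [coeff_sub, coeff_C_mul, ha, hb] at h5
    simp only [coeff_map] at h5
    exact hlc (sub_eq_zero.mp h5)

theorem curve_par (h : Gen A B) : ∃ E : Set (Fin n → ℂ), E.Finite ∧ ∀ x ∈ curve A B, x ∉ E →
    ∃ t : ℂ, ∀ i, (aeval t (B i) : ℂ) ≠ 0 ∧ x i * aeval t (B i) = aeval t (A i) := by
  classical
  rcases Nat.eq_zero_or_pos n with hn | hn
  · subst hn
    exact ⟨∅, Set.finite_empty, fun x _ _ => ⟨0, fun i => i.elim0⟩⟩
  set i₀ : Fin n := ⟨0, hn⟩ with hi₀
  set D := max (A i₀).natDegree (B i₀).natDegree with hD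
  set α : ℂ := algebraMap Qb ℂ ((A i₀).coeff D) with hα
  set β : ℂ := algebraMap Qb ℂ ((B i₀).coeff D) with hβ
  set Z : Set (Fin n → ℂ) := MvPolynomial.zeroLocus ℂ
    (Ideal.span {MvPolynomial.C α - MvPolynomial.X i₀ * MvPolynomial.C β}) with hZ
  have hZmem : ∀ y : Fin n → ℂ, y ∈ Z ↔ α = y i₀ * β := by
    intro y
    rw [hZ, MvPolynomial.zeroLocus_span]
    simp [sub_eq_zero]
  refine ⟨curve A B ∩ Z, ?_, fun x hx hxE => ?_⟩
  · refine finite_inter (curve_irred h.ne) (curve_dim h hn) (closed_zeroLocus _) ?_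
    intro hsub
    by_cases hb0 : β = 0
    · obtain ⟨y, hy, -⟩ := curve_nc h i₀ 0
      have h1 := (hZmem y).mp (hsub hy)
      rw [hb0, mul_zero] at h1
      have hβ0 : (B i₀).coeff D = 0 := (map_eq_zero_iff _ (algebraMap Qb ℂ).injective).mp hb0
      have hα0 : (A i₀).coeff D = 0 := (map_eq_zero_iff _ (algebraMap Qb ℂ).injective).mp h1
      rcases le_total (A i₀).natDegree (B i₀).natDegree with hle | hle
      · rw [hD, max_eq_right hle, coeff_natDegree, leadingCoeff_eq_zero] at hβ0
        exact h.ne i₀ hβ0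
      · rw [hD, max_eq_left hle, coeff_natDegree, leadingCoeff_eq_zero] at hα0
        have h2 := h.nc i₀
        rw [max_eq_left hle, hα0, natDegree_zero] at h2
        exact lt_irrefl _ h2
    · obtain ⟨y, hy, hne⟩ := curve_nc h i₀ (α / β)
      have h1 := (hZmem y).mp (hsub hy)
      exact hne (by rw [h1, mul_div_cancel_right₀ _ hb0])
  · refine curve_par_aux h i₀ hx fun heq => hxE ⟨hx, (hZmem x).mpr heq⟩

end Pool.Agent.LGO.ZF
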