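import Mathlib
import Pool.Agent.LGO.AXG.Rat
import Pool.Agent.LGO.AXG.NoMod
import Pool.Agent.LGO.ZF.CurA
import Pool.Agent.ZPE.Defs
import Pool.Agent.Hhelper14.ZPL.Isog
import Pool.Agent.Hhelper14.ZPL.Hecke2

/-!
# LGO/ZF: modular related coordinates of a rational curve

`MR k l g`: the points whose coordinates `k`, `l` are related by the Hecke correspondence of `g`: a special subvariety,
not everything.  If two coordinates of the rational curve `curve A B` are related by `g` outside finitely many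
parameters then the curve is contained in `MR k l g` (`curve_sub_mr`), so `FinAtypical` is trivial
(`finAtypical_of_sub`).  `nomod_or`: either this happens or no two coordinates are modular related, in the form
`NoMod` of `LGO/AX/Defs` for every choice of coordinates (`rat_nomod`).
-/

namespace Pool.Agent.LGO.ZF

open Polynomial UpperHalfPlane Pool.Agent.Hhelper14.ZP Pool.Agent.Hhelper14.ZPL

variable {n : ℕ} {A B : Fin n → Polynomial Qb}

/-- the coordinates `k`, `l` are related by `g` -/
def MR (k l : Fin n) (g : GL (Fin 2) ℚ) : Set (Fin n → ℂ) :=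
  {x | ∃ τ : ℍ, x k = jInv τ ∧ x l = jInv (gact g τ)}

theorem mr_special {k l : Fin n} (hkl : k ≠ l) {g : GL (Fin 2) ℚ} (hg : 0 < g.det.val) :
    Pool.Agent.Hhelper14.ZPL.IsSpecial (MR k l g) := by
  classical
  let κ := Option {m : Fin n // m ≠ k ∧ m ≠ l}
  let block : Fin n → Option κ := fun m =>
    if hm : m ≠ k ∧ m ≠ l then some (some ⟨m, hm⟩) else some none
  let G : Fin n → GL (Fin 2) ℚ := fun m => if m = l then g else 1
  have h1 : MR k l g = SpSet block G (fun _ => UpperHalfPlane.I) := by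
    ext x
    constructor
    · rintro ⟨τ, hk, hl⟩
      choose t ht using fun z => j_surj z
      refine ⟨fun o => o.elim τ (fun m => t (x m.1)), fun m => ?_⟩
      by_cases hm : m ≠ k ∧ m ≠ l
      · have h2 : block m = some (some ⟨m, hm⟩) := dif_pos hm
        have h3 : G m = 1 := if_neg hm.2
        rw [h2, h3]
        simp only [Option.elim_some, gact_one, ht]
      · have h2 : block m = some none := dif_neg hm
        rw [h2]
        simp only [Option.elim_some, Option.elim_none]
        by_cases hml : m = l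
        · have h3 : G m = g := if_pos hml
          rw [h3, hml, hl]
        · have h3 : G m = 1 := if_neg hml
          have h4 : m = k := by
            by_contra h5
            exact hm ⟨h5, hml⟩
          rw [h3, gact_one, h4, hk]
    · rintro ⟨τ, hτ⟩
      refine ⟨τ none, ?_, ?_⟩
      · have h2 := hτ k
        have h3 : block k = some none := dif_neg fun h => h.1 rfl
        have h4 : G k = 1 := if_neg hkl
        rw [h3, h4] at h2
        simp only [Option.elim_some, gact_one] at h2
        exact h2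
      · have h2 := hτ l
        have h3 : block l = some none := dif_neg fun h => h.2 rfl
        have h4 : G l = g := if_pos rfl
        rw [h3, h4] at h2
        simp only [Option.elim_some] at h2
        exact h2
  have hb : ∀ b : κ, ∃ i, block i = some b := by
    intro b
    rcases b with _ | m
    · exact ⟨k, dif_neg fun h => h.1 rfl⟩
    · exact ⟨m.1, dif_pos m.2⟩
  have hG : ∀ i, 0 < (G i).det.val := by
    intro m
    by_cases hml : m = l
    · have h3 : G m = g := if_pos hml
      rw [h3]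
      exact hg
    · have h3 : G m = 1 := if_neg hml
      rw [h3]
      simp
  have hs : ∀ i, block i = none → IsCM UpperHalfPlane.I := by
    intro m hm
    exfalso
    by_cases h : m ≠ k ∧ m ≠ l
    · have h2 : block m = some (some ⟨m, h⟩) := dif_pos h
      rw [h2] at hm
      exact Option.some_ne_none _ hm
    · have h2 : block m = some none := dif_neg h
      rw [h2] at hm
      exact Option.some_ne_none _ hm
  obtain ⟨block', hb', hs', he⟩ := isSpecial_mk (s := fun _ => UpperHalfPlane.I) hb hG hs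
  rw [h1, he]
  exact isSpecial_iff.mpr ⟨_, block', G, _, hb', hG, hs', rfl⟩

theorem mr_ne_univ {k l : Fin n} (hkl : k ≠ l) {g : GL (Fin 2) ℚ} (hg : 0 < g.det.val) :
    MR k l g ≠ Set.univ := by
  classical
  intro h
  have hfin := neighbours_finite hg 0
  refine Set.infinite_univ (hfin.subset fun v _ => ?_)
  have h1 : (fun m => if m = l then v else 0 : Fin n → ℂ) ∈ MR k l g := by
    rw [h]
    exact Set.mem_univ _
  obtain ⟨τ, h2, h3⟩ := h1
  have h2' : (if k = l then v else 0) = jInv τ := h2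
  have h3' : (if l = l then v else 0) = jInv (gact g τ) := h3
  rw [if_neg hkl] at h2'
  rw [if_pos rfl] at h3'
  exact ⟨τ, h2'.symm, h3'.symm⟩

/-- **a relation for almost all parameters holds on the whole curve** -/
theorem curve_sub_mr (hB : ∀ i, B i ≠ 0) {k l : Fin n} (hkl : k ≠ l) {g : GL (Fin 2) ℚ}
    (hg : 0 < g.det.val) {E : Set ℂ} (hE : E.Finite)
    (h : ∀ t : ℂ, t ∉ E → (∀ i, (aeval t (B i) : ℂ) ≠ 0) → ∃ τ : ℍ,
      (aeval t (A k) / aeval t (B k) : ℂ) = jInv τ ∧
      (aeval t (A l) / aeval t (B l) : ℂ) = jInv (gact g τ)) : curve A B ⊆ MR k l g := by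
  have hcl := special_closed (mr_special hkl hg)
  change MvPolynomial.zeroLocus ℂ (MvPolynomial.vanishingIdeal ℂ (MR k l g)) = MR k l g at hcl
  rw [← hcl]
  refine MvPolynomial.zeroLocus_anti_mono fun F hF => ?_
  rw [MvPolynomial.mem_vanishingIdeal_iff] at hF ⊢
  rcases zero_or (A := A) hB F with h1 | h1
  · exfalso
    have h2 : (E ∪ {t : ℂ | ∃ i, (aeval t (B i) : ℂ) = 0} ∪
        {t : ℂ | (∀ i, (aeval t (B i) : ℂ) ≠ 0) ∧
          MvPolynomial.eval (fun i => (aeval t (A i) / aeval t (B i) : ℂ)) F = 0}).Finite :=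
      (hE.union (finite_poles hB)).union h1
    obtain ⟨t, ht⟩ := h2.infinite_compl.nonempty
    rw [Set.mem_compl_iff, Set.mem_union, Set.mem_union, not_or, not_or] at ht
    obtain ⟨⟨ht1, ht2⟩, ht3⟩ := ht
    have ht2' : ∀ i, (aeval t (B i) : ℂ) ≠ 0 := fun i hi => ht2 ⟨i, hi⟩
    apply ht3
    refine ⟨ht2', ?_⟩
    obtain ⟨τ, h3, h4⟩ := h t ht1 ht2'
    have h5 := hF (fun i => (aeval t (A i) / aeval t (B i) : ℂ)) ⟨τ, h3, h4⟩
    rwa [MvPolynomial.aeval_eq_eval] at h5
  · intro x hx
    rw [MvPolynomial.aeval_eq_eval]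
    exact h1 x hx

/-- a curve in a proper special subvariety -/
theorem finAtypical_of_sub {V T : Set (Fin n → ℂ)} (hT : Pool.Agent.Hhelper14.ZPL.IsSpecial T)
    (hne : T ≠ Set.univ) (h : V ⊆ T) : Pool.Agent.ZPE.FinAtypical V := by
  refine ⟨{T}, Set.finite_singleton _, ?_, ?_⟩
  · intro T' hT'
    rw [Set.mem_singleton_iff] at hT'
    rw [hT']
    exact ⟨hT, hne⟩
  · intro Z hZ C hC hd
    exact ⟨T, rfl, fun x hx => h (hC.2.1 hx).1⟩

/-- an integral matrix of positive determinant as an element of `GL₂(ℚ)` -/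
theorem exists_gl {g : Matrix (Fin 2) (Fin 2) ℤ} (hg : 0 < g.det) : ∃ g' : GL (Fin 2) ℚ,
    0 < g'.det.val ∧ ∀ τ : ℍ, AX.mz g (τ : ℂ) = ((gact g' τ : ℍ) : ℂ) := by
  have hdet : (g.map (Int.castRingHom ℚ)).det = ((g.det : ℤ) : ℚ) := by
    rw [← RingHom.mapMatrix_apply, ← RingHom.map_det]
    rfl
  have hdet0 : (g.map (Int.castRingHom ℚ)).det ≠ 0 := by
    rw [hdet]
    exact_mod_cast hg.ne'
  let g' : GL (Fin 2) ℚ := Matrix.GeneralLinearGroup.mkOfDetNeZero (g.map (Int.castRingHom ℚ)) hdet0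
  have hg' : 0 < g'.det.val := by
    have h1 : g'.det.val = (g.map (Int.castRingHom ℚ)).det := rfl
    rw [h1, hdet]
    exact_mod_cast hg
  refine ⟨g', hg', fun τ => ?_⟩
  rw [coe_gact hg']
  have h1 : ∀ c d, g'.1 c d = ((g c d : ℤ) : ℚ) := fun c d => rfl
  simp only [h1, AX.mz]
  norm_cast

/-- no two coordinates of the curve are modular related, even after removing finitely many parameters -/
def NoModP (A B : Fin n → Polynomial Qb) : Prop := ∀ k l : Fin n, k ≠ l →
  ∀ g : Matrix (Fin 2) (Fin 2) ℤ, 0 < g.det → ∀ E : Set ℂ, E.Finite →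
    ¬ ∀ t : ℂ, t ∉ E → (∀ i, (aeval t (B i) : ℂ) ≠ 0) → ∃ z : ℂ, 0 < z.im ∧
      (aeval t (A k) / aeval t (B k) : ℂ) = jF z ∧
      (aeval t (A l) / aeval t (B l) : ℂ) = jF (AX.mz g z)

/-- **either no two coordinates are modular related or the curve is in a proper special subvariety** -/
theorem nomod_or (hB : ∀ i, B i ≠ 0) : NoModP A B ∨ ∃ T : Set (Fin n → ℂ),
    Pool.Agent.Hhelper14.ZPL.IsSpecial T ∧ T ≠ Set.univ ∧ curve A B ⊆ T := by
  by_cases hM : NoModP A B
  · exact Or.inl hM
  · right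
    unfold NoModP at hM
    push Not at hM
    obtain ⟨k, l, hkl, g, hg, E, hE, h⟩ := hM
    obtain ⟨g', hg', hmz⟩ := exists_gl hg
    refine ⟨MR k l g', mr_special hkl hg', mr_ne_univ hkl hg', curve_sub_mr hB hkl hg' hE ?_⟩
    intro t ht hBt
    obtain ⟨z, hz, h1, h2⟩ := h t ht hBt
    refine ⟨⟨z, hz⟩, ?_, ?_⟩
    · rw [h1]
      exact jF_coe ⟨z, hz⟩
    · rw [h2]
      have h3 := hmz ⟨z, hz⟩
      rw [show AX.mz g z = AX.mz g ((⟨z, hz⟩ : ℍ) : ℂ) from rfl, h3, jF_coe]

/-- the same for the model of some of the coordinates -/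
theorem rat_nomod (hM : NoModP A B) {m : ℕ} (i : Fin m → Fin n)
    (hi : Function.Injective i) (hB' : ∀ a, (B (i a)).map (algebraMap Qb ℂ) ≠ 0) :
    (AXG.rat (fun a => (A (i a)).map (algebraMap Qb ℂ))
      (fun a => (B (i a)).map (algebraMap Qb ℂ)) hB').NoMod := by
  intro a b hab g hg E
  intro h
  refine hM (i a) (i b) (hi.ne hab) g hg (E : Set ℂ) E.finite_toSet fun t ht hBt => ?_
  have hev : ∀ P : Polynomial Qb, (P.map (algebraMap Qb ℂ)).eval t = (aeval t P : ℂ) := fun P =>
    eval_map_algebraMap P t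
  have hp : (t, (0 : ℂ)) ∈ (AXG.rat (fun a => (A (i a)).map (algebraMap Qb ℂ))
      (fun a => (B (i a)).map (algebraMap Qb ℂ)) hB').pt := by
    rw [AXG.rat_mem]
    refine ⟨fun c => ?_, rfl⟩
    change ((B (i c)).map (algebraMap Qb ℂ)).eval t ≠ 0
    rw [hev]
    exact hBt (i c)
  obtain ⟨z, hz, h1, h2⟩ := h (t, 0) hp (by simpa using ht)
  rw [AXG.rat_x _ _ _ _ hp] at h1 h2
  refine ⟨z, hz, ?_, ?_⟩
  · rw [← h1, ← hev, ← hev]
  · rw [← h2, ← hev, ← hev]

end Pool.Agent.LGO.ZF
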