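import Mathlib
import Pool.Agent.LGO.ZF.Defs
import Pool.Agent.Hhelper14.ZPL.Proj
import Pool.Agent.Hhelper14.ZPL.Topo
import Pool.Agent.Hhelper14.ZPL.Dim
import Pool.Agent.ZPE.Crit

/-!
# LGO/ZF: from the finiteness of the points to the finiteness of the atypical intersections

PROOF of `crit`.  For `x ∈ Atyp V` choose `Z_x` (special, `x ∈ Z_x`, `dim Z_x + 2 ≤ n`; `Z_x ≠ univ` since
`dim univ = n`, `dim_univ`).  If `V` lies in a special subvariety `T₀ ≠ univ`, let `S = {T₀}` (every `C ⊆ V`);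
otherwise `S = {Z_x | x ∈ Atyp V}`, finite.  Let `Z` be special, `C` a component of `V ∩ Z` with
`dim Z + dim V < dim C + n`.  `dim C = c ∈ ℕ` (`dim_eq_nat` in `ZPE/Crit.lean`), `dim C ≤ dim V = 1` (`dim_mono`),
`dim Z = r ∈ ℕ` (`isSpecial_iff`, `dim_spSet`).  If `c = 1`: `C = V` (`eq_of_dim_le`), so `V ⊆ Z`, `r < n`, so `Z ≠ univ`
and we are in the first case (contradiction in the second).  If `c = 0`: `r + 2 ≤ n`; every `x ∈ C` is in `Atyp V`, and
`C` is a single point by `one_le_dim` (`ZPL/Topo.lean`), nonempty (prime ideal ≠ ⊤; or any `x ∈ C`), so `C ⊆ Z_x`.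
-/

namespace Pool.Agent.LGO.ZF

open UpperHalfPlane MvPolynomial Pool.Agent.Hhelper14.ZP Pool.Agent.Hhelper14.ZPL Pool.Agent.ZPE

theorem crit {n : ℕ} {V : Set (Fin n → ℂ)} (hV : Pool.Agent.Hhelper14.ZPL.IsIrredClosed V)
    (hdim : Pool.Agent.Hhelper14.ZPL.dim V = 1) (h : (Atyp V).Finite) : FinAtypical V := by
  classical
  by_cases h0 : ∃ T₀ : Set (Fin n → ℂ), Pool.Agent.Hhelper14.ZPL.IsSpecial T₀ ∧ T₀ ≠ Set.univ ∧ V ⊆ T₀
  · obtain ⟨T₀, hT, hne, hVT⟩ := h0
    refine ⟨{T₀}, Set.finite_singleton _, ?_, ?_⟩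
    · intro T hTT
      rw [Set.mem_singleton_iff] at hTT
      rw [hTT]
      exact ⟨hT, hne⟩
    · intro Z hZ C hC hd
      exact ⟨T₀, rfl, fun x hx => hVT (hC.2.1 hx).1⟩
  · have hch : ∀ x : Atyp V, ∃ Z, Pool.Agent.Hhelper14.ZPL.IsSpecial Z ∧ x.1 ∈ Z ∧
        Pool.Agent.Hhelper14.ZPL.dim Z + 2 ≤ (n : WithBot ℕ∞) := fun x => x.2.2
    choose Z hZs hxZ hZd using hch
    have hfin : Finite (Atyp V) := h
    refine ⟨Set.range Z, Set.finite_range Z, ?_, ?_⟩
    · rintro _ ⟨x, rfl⟩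
      refine ⟨hZs x, ?_⟩
      intro hu
      have h1 := hZd x
      rw [hu, dim_univ, Fintype.card_fin] at h1
      have h2 : n + 2 ≤ n := by exact_mod_cast h1
      omega
    · intro Y hY C hC hd
      have hY' : Pool.Agent.Hhelper14.ZPL.IsSpecial Y := hY
      have hC' : Pool.Agent.Hhelper14.ZPL.IsIrredClosed C := hC.1
      obtain ⟨c, hc⟩ := dim_eq_nat hC'
      obtain ⟨r, block, g, s, hb, hg, hs, hYe⟩ := isSpecial_iff.mp hY'
      have h1 : Pool.Agent.Hhelper14.ZPL.dim Y = r := by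
        rw [hYe, dim_spSet hb hg, Fintype.card_fin]
      have h2 : Pool.Agent.Hhelper14.ZPL.dim Y + Pool.Agent.Hhelper14.ZPL.dim V <
        Pool.Agent.Hhelper14.ZPL.dim C + n := hd
      rw [h1, hdim, hc] at h2
      have h3 : r + 1 < c + n := by exact_mod_cast h2
      have hCV : C ⊆ V := fun x hx => (hC.2.1 hx).1
      have hCY : C ⊆ Y := fun x hx => (hC.2.1 hx).2
      have h4 : Pool.Agent.Hhelper14.ZPL.dim C ≤ Pool.Agent.Hhelper14.ZPL.dim V :=
        Pool.Agent.Hhelper14.ZPL.dim_mono hCV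
      have h4' := h4
      rw [hc, hdim] at h4'
      have h5 : c ≤ 1 := by exact_mod_cast h4'
      by_cases hc1 : c = 1
      · exfalso
        have h6 : C = V := by
          refine eq_of_dim_le hC' hV hCV ?_
          rw [hdim, hc, hc1]
          exact le_rfl
        have h7 : Y ≠ Set.univ := by
          intro hu
          rw [hu, dim_univ, Fintype.card_fin] at h1
          have h8 : n = r := by exact_mod_cast h1
          omega
        exact h0 ⟨Y, hY', h7, h6 ▸ hCY⟩
      · have hc0 : c = 0 := by omega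
        obtain ⟨x, hx⟩ := irred_nonempty hC'
        have hxA : x ∈ Atyp V := by
          refine ⟨hCV hx, Y, hY', hCY hx, ?_⟩
          rw [h1]
          have h8 : r + 2 ≤ n := by omega
          exact_mod_cast h8
        refine ⟨Z ⟨x, hxA⟩, ⟨_, rfl⟩, fun y hy => ?_⟩
        by_cases hxy : x = y
        · rw [← hxy]
          exact hxZ ⟨x, hxA⟩
        · exfalso
          have h9 := one_le_dim hC' hx hy hxy
          rw [hc, hc0] at h9
          have h10 : 1 ≤ 0 := by exact_mod_cast h9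
          omega

end Pool.Agent.LGO.ZF
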