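import Mathlib
import Pool.Agent.LGO.ZF.Defs
import Pool.Agent.LGO.Gal.NCM
import Pool.Agent.Hhelper14.ZPL.Proj
import Pool.Agent.LGO.ZPR.Types

/-!
# LGO/ZF: the four types of points on special subvarieties of codimension at least two

PROOF of `typ`.  `isSpecial_iff`: `Z = SpSet block g s`, `r` blocks, `dim Z = r` (`dim_spSet`), so `r + 2 ≤ n`.  `x ∈ Z`:
`τ : Fin r → ℍ` with `x i = jInv (gact (g i) (τ b))` if `block i = some b` and `x i = jInv (s i)` with `IsCM (s i)` if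
`block i = none`.
(1) Two coordinates in one block are `HeckeRel` (see the last lines of `crit` in `ZPE/Crit.lean`), and if one of them
is a singular modulus so is the other (`heckeRel_iff`, `NCM.of_isog`, `IsogDeg.symm`); `¬ NCM y → IsCMVal y`.
(2) If two coordinates `a ≠ b` are singular moduli: the last alternative.
(3) Otherwise let `G` be the set of the `i` with `NCM (x i)`: `n - 1 ≤ |G|`; all of them have `block i = some (f i)`.
 If `|G| = n`: `f : Fin n → Fin r`, `r + 2 ≤ n`: if a fibre of `f` has three elements: the first alternative; otherwise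
 pigeonhole gives `a ≠ b` with `f a = f b`, and a second time on `Fin n \ {a}` (`n - 1 > r` elements):
 `c ≠ d` with `f c = f d`, `c, d ≠ a`; `b ∉ {c, d}` or there are three elements in one fibre: second alternative.
 If `|G| = n - 1`, `G = univ \ {c}`: pigeonhole on `G` (`n - 1 > r`): `a ≠ b` in `G`, `f a = f b`: third
 alternative.
-/

namespace Pool.Agent.LGO.ZF

open UpperHalfPlane Pool.Agent.Hhelper14.ZP Pool.Agent.Hhelper14.ZPL Pool.Agent.LGO

private theorem inj2 {n : ℕ} {i j : Fin n} (hij : i ≠ j) : Function.Injective ![i, j] := by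
  intro a b hab
  fin_cases a <;> fin_cases b <;> simp_all [eq_comm]

private theorem inj3 {n : ℕ} {i j k : Fin n} (hij : i ≠ j) (hik : i ≠ k) (hjk : j ≠ k) :
    Function.Injective ![i, j, k] := by
  have hij' := hij.symm
  have hik' := hik.symm
  have hjk' := hjk.symm
  intro a b hab
  fin_cases a <;> fin_cases b <;> simp_all

private theorem inj4 {n : ℕ} {i j k l : Fin n} (hij : i ≠ j) (hik : i ≠ k) (hil : i ≠ l)
    (hjk : j ≠ k) (hjl : j ≠ l) (hkl : k ≠ l) : Function.Injective ![i, j, k, l] := by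
  have hij' := hij.symm
  have hik' := hik.symm
  have hil' := hil.symm
  have hjk' := hjk.symm
  have hjl' := hjl.symm
  have hkl' := hkl.symm
  intro a b hab
  fin_cases a <;> fin_cases b <;> simp_all

private theorem ncm_of_rel {u v : ℂ} (h : HeckeRel u v) (hu : ¬ IsCMVal u) : NCM u ∧ NCM v :=
  ⟨ncm_iff.mpr hu, ncm_iff.mpr fun hv => hu ((ZPR.Types_iso h).mpr hv)⟩

theorem typ {n : ℕ} {Z : Set (Fin n → ℂ)} (hZ : Pool.Agent.Hhelper14.ZPL.IsSpecial Z)
    (hd : Pool.Agent.Hhelper14.ZPL.dim Z + 2 ≤ (n : WithBot ℕ∞)) {x : Fin n → ℂ} (hx : x ∈ Z) :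
    (∃ i : Fin 3 → Fin n, Function.Injective i ∧ (∀ a, NCM (x (i a))) ∧
      HeckeRel (x (i 0)) (x (i 1)) ∧ HeckeRel (x (i 0)) (x (i 2))) ∨
    (∃ i : Fin 4 → Fin n, Function.Injective i ∧ (∀ a, NCM (x (i a))) ∧
      HeckeRel (x (i 0)) (x (i 1)) ∧ HeckeRel (x (i 2)) (x (i 3))) ∨
    (∃ i : Fin 3 → Fin n, Function.Injective i ∧ NCM (x (i 0)) ∧ NCM (x (i 1)) ∧
      HeckeRel (x (i 0)) (x (i 1)) ∧ IsCMVal (x (i 2))) ∨
    (∃ i : Fin 2 → Fin n, Function.Injective i ∧ IsCMVal (x (i 0)) ∧ IsCMVal (x (i 1))) := by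
  obtain ⟨r, block, g, s, hb, hg, hs, rfl⟩ := isSpecial_iff.mp hZ
  have hr : r + 2 ≤ n := by
    rw [dim_spSet hb hg, Fintype.card_fin] at hd
    exact_mod_cast hd
  have h4 : ∀ i j : Fin n, i ≠ j → IsCMVal (x i) → IsCMVal (x j) →
      ∃ i : Fin 2 → Fin n, Function.Injective i ∧ IsCMVal (x (i 0)) ∧ IsCMVal (x (i 1)) :=
    fun i j hij hi hj => ⟨![i, j], inj2 hij, hi, hj⟩
  rcases ZPR.Types_comb hb hr with ⟨i, j, hij, hi, hj⟩ | ⟨i, j, k, b, hij, hik, hjk, hi, hj, hk⟩ |
    ⟨i, j, k, b, hij, hik, hjk, hi, hj, hk⟩ |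
    ⟨i, j, k, l, b, b', hij, hik, hil, hjk, hjl, hkl, hi, hj, hk, hl⟩
  · exact Or.inr (Or.inr (Or.inr (h4 i j hij (ZPR.Types_cm hs hx hi) (ZPR.Types_cm hs hx hj))))
  · have hk' := ZPR.Types_cm hs hx hk
    have hR := ZPR.Types_block hg hx hi hj
    by_cases hc : IsCMVal (x i)
    · exact Or.inr (Or.inr (Or.inr (h4 i k hik hc hk')))
    · obtain ⟨h1, h2⟩ := ncm_of_rel hR hc
      exact Or.inr (Or.inr (Or.inl ⟨![i, j, k], inj3 hij hik hjk, h1, h2, hR, hk'⟩))
  · have hR := ZPR.Types_block hg hx hi hj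
    have hR' := ZPR.Types_block hg hx hi hk
    by_cases hc : IsCMVal (x i)
    · exact Or.inr (Or.inr (Or.inr (h4 i j hij hc ((ZPR.Types_iso hR).mp hc))))
    · obtain ⟨h1, h2⟩ := ncm_of_rel hR hc
      obtain ⟨-, h3⟩ := ncm_of_rel hR' hc
      refine Or.inl ⟨![i, j, k], inj3 hij hik hjk, ?_, hR, hR'⟩
      intro a
      fin_cases a
      · exact h1
      · exact h2
      · exact h3
  · have hR := ZPR.Types_block hg hx hi hj
    have hR' := ZPR.Types_block hg hx hk hl
    by_cases hc : IsCMVal (x i)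
    · exact Or.inr (Or.inr (Or.inr (h4 i j hij hc ((ZPR.Types_iso hR).mp hc))))
    · by_cases hc' : IsCMVal (x k)
      · exact Or.inr (Or.inr (Or.inr (h4 k l hkl hc' ((ZPR.Types_iso hR').mp hc'))))
      · obtain ⟨h1, h2⟩ := ncm_of_rel hR hc
        obtain ⟨h3, h5⟩ := ncm_of_rel hR' hc'
        refine Or.inr (Or.inl ⟨![i, j, k, l], inj4 hij hik hil hjk hjl hkl, ?_, hR, hR'⟩)
        intro a
        fin_cases a
        · exact h1
        · exact h2
        · exact h3
        · exact h5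

end Pool.Agent.LGO.ZF
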