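import Mathlib
import Pool.Agent.LGO.ZF.Crit
import Pool.Agent.LGO.ZF.Typ

/-!
# LGO/ZF: the four finiteness statements imply the finiteness of the atypical points
-/

namespace Pool.Agent.LGO.ZF

open UpperHalfPlane Pool.Agent.Hhelper14.ZP Pool.Agent.Hhelper14.ZPL Pool.Agent.LGO Pool.Agent.ZPE

theorem atyp_finite {n : ℕ} {V : Set (Fin n → ℂ)} (h1 : T1 V) (h2 : T2 V) (h3 : T3 V) (h4 : T4 V) :
    (Atyp V).Finite := by
  classical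
  have f1 : (⋃ i : {i : Fin 3 → Fin n // Function.Injective i},
      {x ∈ V | (∀ a, NCM (x (i.1 a))) ∧ HeckeRel (x (i.1 0)) (x (i.1 1)) ∧
        HeckeRel (x (i.1 0)) (x (i.1 2))}).Finite :=
    Set.finite_iUnion fun i => h1 i.1 i.2
  have f2 : (⋃ i : {i : Fin 4 → Fin n // Function.Injective i},
      {x ∈ V | (∀ a, NCM (x (i.1 a))) ∧ HeckeRel (x (i.1 0)) (x (i.1 1)) ∧
        HeckeRel (x (i.1 2)) (x (i.1 3))}).Finite :=
    Set.finite_iUnion fun i => h2 i.1 i.2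
  have f3 : (⋃ i : {i : Fin 3 → Fin n // Function.Injective i},
      {x ∈ V | NCM (x (i.1 0)) ∧ NCM (x (i.1 1)) ∧ HeckeRel (x (i.1 0)) (x (i.1 1)) ∧
        IsCMVal (x (i.1 2))}).Finite :=
    Set.finite_iUnion fun i => h3 i.1 i.2
  have f4 : (⋃ i : {i : Fin 2 → Fin n // Function.Injective i},
      {x ∈ V | IsCMVal (x (i.1 0)) ∧ IsCMVal (x (i.1 1))}).Finite :=
    Set.finite_iUnion fun i => h4 i.1 i.2
  refine (f1.union (f2.union (f3.union f4))).subset ?_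
  rintro x ⟨hxV, Z, hZ, hxZ, hd⟩
  rcases typ hZ hd hxZ with ⟨i, hi, h⟩ | ⟨i, hi, h⟩ | ⟨i, hi, h⟩ | ⟨i, hi, h⟩
  · exact Or.inl (Set.mem_iUnion.mpr ⟨⟨i, hi⟩, hxV, h⟩)
  · exact Or.inr (Or.inl (Set.mem_iUnion.mpr ⟨⟨i, hi⟩, hxV, h⟩))
  · exact Or.inr (Or.inr (Or.inl (Set.mem_iUnion.mpr ⟨⟨i, hi⟩, hxV, h⟩)))
  · exact Or.inr (Or.inr (Or.inr (Set.mem_iUnion.mpr ⟨⟨i, hi⟩, hxV, h⟩)))

end Pool.Agent.LGO.ZF
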