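import Mathlib
import Pool.Agent.LGO.CM.Conj
import Pool.Agent.LGO.CM.Inv
import Pool.Agent.LGO.U.RMob
import Pool.Agent.LGO.U.RFld
import Pool.Agent.LGO.H.MDeg

/-!
# LGO/ZF: the pair theorem after a change of the parameter

`PairThm Aa Ba Ab Bb` is the conclusion of the pair theorem `P'` of LGO/PA: bounds for the minimal degree and the
height of the parameter.  `pair_mob`: if the coordinates `a`, `b` of a rational curve have a point where only the first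
of them is infinite, then all coordinates of a point with isogenous `x a`, `x b` have height at most
`(C D) ^ C` over a field of degree at most `C D`.
-/

namespace Pool.Agent.LGO.ZF

open Polynomial Pool.Agent.Hhelper14.ZP Pool.Agent.Hhelper14.ZPL Pool.Agent.LGO Pool.Agent.LGO.U

/-- the conclusion of the pair theorem -/
def PairThm (Aa Ba Ab Bb : Polynomial Qb) : Prop :=
  ∃ (C : ℕ) (T : Set ℂ), T.Finite ∧ ∀ (K : IntermediateField ℚ ℂ) [FiniteDimensional ℚ K] (u v t : ℂ),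
    (∀ i, ((Aa.coeff i : Qb) : ℂ) ∈ K ∧ ((Ba.coeff i : Qb) : ℂ) ∈ K ∧
      ((Ab.coeff i : Qb) : ℂ) ∈ K ∧ ((Bb.coeff i : Qb) : ℂ) ∈ K) →
    u ∈ K → v ∈ K → t ∈ K → t ∉ T → NCM v → (∃ N, 0 < N ∧ IsogDeg N v u) →
    (aeval t Ba : ℂ) ≠ 0 → (aeval t Aa : ℂ) = u * aeval t Ba →
    (aeval t Bb : ℂ) ≠ 0 → (aeval t Ab : ℂ) = v * aeval t Bb →
    (mdeg v u : ℝ) ≤ ((C : ℝ) * Module.finrank ℚ K) ^ C ∧
      Bd K (((C : ℝ) * Module.finrank ℚ K) ^ C) t

/-- the pair theorem for all pairs with a pole of the first function at infinity which is not a pole of the second -/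
def PairAll : Prop := ∀ Aa Ba Ab Bb : Polynomial Qb, IsCoprime Aa Ba → IsCoprime Ab Bb →
  Ba.natDegree < Aa.natDegree → Ab.natDegree ≤ Bb.natDegree → 1 ≤ rdeg Ab Bb → PairThm Aa Ba Ab Bb

theorem pw_mono {C C' D : ℕ} (hC : C ≤ C') (hD : 1 ≤ D) :
    ((C : ℝ) * (D : ℝ)) ^ C ≤ ((C' : ℝ) * (D : ℝ)) ^ C' := by
  have h : (C * D) ^ C ≤ (C' * D) ^ C' := by
    rcases Nat.eq_zero_or_pos C' with h0 | h0
    · subst h0
      have : C = 0 := by omega
      subst this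
      exact le_rfl
    · calc (C * D) ^ C ≤ (C' * D) ^ C := Nat.pow_le_pow_left (Nat.mul_le_mul_right _ hC) _
        _ ≤ (C' * D) ^ C' := Nat.pow_le_pow_right (Nat.mul_pos h0 hD) hC
  exact_mod_cast h

/-- absorb constants -/
theorem pw_absorb (a : ℝ) (b c : ℕ) : ∃ C : ℕ, 1 ≤ C ∧ ∀ D : ℕ, 1 ≤ D →
    a * D * (1 + ((b : ℝ) * D) ^ c) ≤ ((C : ℝ) * D) ^ C := by
  refine ⟨⌈|a|⌉₊ + b + c + 2, by omega, ?_⟩
  intro D hD
  set E : ℕ := ⌈|a|⌉₊ + b + c + 2 with hE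
  have hD1 : (1 : ℝ) ≤ D := by exact_mod_cast hD
  have ha : |a| ≤ (⌈|a|⌉₊ : ℝ) := Nat.le_ceil _
  have hcast : (E : ℝ) = (⌈|a|⌉₊ : ℝ) + b + c + 2 := by rw [hE]; push_cast; ring
  have hb0 : (0 : ℝ) ≤ b := Nat.cast_nonneg _
  have hc0 : (0 : ℝ) ≤ c := Nat.cast_nonneg _
  have hE2 : (2 : ℝ) ≤ E := by rw [hcast]; linarith [abs_nonneg a]
  set F : ℝ := (E : ℝ) * D with hF
  have hF2 : 2 ≤ F := by rw [hF]; nlinarith
  have h1 : a * D ≤ F := by
    have : a ≤ E := by rw [hcast]; linarith [le_abs_self a]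
    exact mul_le_mul_of_nonneg_right this (by linarith)
  have h2 : (b : ℝ) * D ≤ F := by
    have : (b : ℝ) ≤ E := by rw [hcast]; linarith [abs_nonneg a]
    exact mul_le_mul_of_nonneg_right this (by linarith)
  have h3 : ((b : ℝ) * D) ^ c ≤ F ^ c := pow_le_pow_left₀ (by positivity) h2 c
  have h4 : 1 ≤ F ^ c := one_le_pow₀ (by linarith)
  calc a * D * (1 + ((b : ℝ) * D) ^ c) ≤ F * (1 + ((b : ℝ) * D) ^ c) :=
        mul_le_mul_of_nonneg_right h1 (by positivity)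
    _ ≤ F * (F * F ^ c) := by
        refine mul_le_mul_of_nonneg_left ?_ (by linarith)
        nlinarith
    _ = F ^ (c + 2) := by ring
    _ ≤ F ^ E := pow_le_pow_right₀ (by linarith) (by omega)

variable {n : ℕ} {A B : Fin n → Polynomial Qb}

private theorem pair_inf (hc : ∀ i, IsCoprime (A i) (B i)) (hd : ∀ i, 1 ≤ rdeg (A i) (B i))
    (hP : PairAll) {a b : Fin n} (ha : (B a).natDegree < (A a).natDegree)
    (hb : (A b).natDegree ≤ (B b).natDegree) :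
    ∃ (C : ℕ) (T : Set ℂ), T.Finite ∧ ∀ (t : ℂ) (x : Fin n → ℂ), t ∉ T →
      (∀ k, (aeval t (B k) : ℂ) ≠ 0 ∧ (aeval t (A k) : ℂ) = x k * aeval t (B k)) →
      NCM (x b) → (∃ N, 0 < N ∧ IsogDeg N (x b) (x a)) →
      ∀ (K : IntermediateField ℚ ℂ) [FiniteDimensional ℚ K], x a ∈ K →
        ∃ K' : IntermediateField ℚ ℂ, K ≤ K' ∧ FiniteDimensional ℚ K' ∧
          (Module.finrank ℚ K' : ℝ) ≤ C * Module.finrank ℚ K ∧
          (mdeg (x b) (x a) : ℝ) ≤ ((C : ℝ) * Module.finrank ℚ K) ^ C ∧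
          ∀ k, Bd K' (((C : ℝ) * Module.finrank ℚ K) ^ C) (x k) := by
  classical
  obtain ⟨C₁, T, hT, h1⟩ := hP _ _ _ _ (hc a) (hc b) ha hb (hd b)
  obtain ⟨C₂, hC₂, h2⟩ := fld_t (A a) (B a) ha (Finset.univ.image A ∪ Finset.univ.image B)
  choose C₃ hC₃ h3 using fun k => bd_ratio (A k) (B k)
  choose E hE h4 using fun k => pw_absorb (C₃ k * C₂) (C₁ * C₂) C₁
  refine ⟨C₂ + C₁ * C₂ + C₁ + ∑ k, E k, T, hT, ?_⟩
  intro t x ht hx hncm hiso K _ hK
  set D : ℕ := Module.finrank ℚ K with hD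
  have hD1 : 1 ≤ D := Module.finrank_pos
  have hD1' : (1 : ℝ) ≤ D := by exact_mod_cast hD1
  set C : ℕ := C₂ + C₁ * C₂ + C₁ + ∑ k, E k with hC
  obtain ⟨K', hKK', hfd, hrk, htK, hcoef⟩ := h2 K (x a) t hK (hx a).2
  have hcA : ∀ k i, (((A k).coeff i : Qb) : ℂ) ∈ K' := fun k i =>
    hcoef (A k) (Finset.mem_union_left _ (Finset.mem_image_of_mem _ (Finset.mem_univ k))) i
  have hcB : ∀ k i, (((B k).coeff i : Qb) : ℂ) ∈ K' := fun k i =>
    hcoef (B k) (Finset.mem_union_right _ (Finset.mem_image_of_mem _ (Finset.mem_univ k))) i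
  have hxK : ∀ k, x k ∈ K' := by
    intro k
    have e1 : x k = aeval t (A k) / aeval t (B k) := by
      rw [(hx k).2, mul_div_cancel_right₀ _ (hx k).1]
    rw [e1]
    exact div_mem (mem_aeval htK (hcA k)) (mem_aeval htK (hcB k))
  obtain ⟨h5, h6⟩ := h1 K' (x a) (x b) t (fun i => ⟨hcA a i, hcB a i, hcA b i, hcB b i⟩) (hxK a)
    (hxK b) htK ht hncm hiso (hx a).1 (hx a).2 (hx b).1 (hx b).2
  have hrk' : (Module.finrank ℚ K' : ℝ) ≤ C₂ * D := by exact_mod_cast hrk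
  have hrk0 : (0 : ℝ) ≤ Module.finrank ℚ K' := Nat.cast_nonneg _
  have hM : ((C₁ : ℝ) * Module.finrank ℚ K') ^ C₁ ≤ (((C₁ * C₂ : ℕ) : ℝ) * D) ^ C₁ := by
    refine pow_le_pow_left₀ (by positivity) ?_ _
    calc (C₁ : ℝ) * Module.finrank ℚ K' ≤ C₁ * (C₂ * D) :=
          mul_le_mul_of_nonneg_left hrk' (Nat.cast_nonneg _)
      _ = ((C₁ * C₂ : ℕ) : ℝ) * D := by push_cast; ring
  refine ⟨K', hKK', hfd, ?_, ?_, ?_⟩
  · refine hrk'.trans (mul_le_mul_of_nonneg_right ?_ (by linarith))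
    have : C₂ ≤ C := by rw [hC]; omega
    exact_mod_cast this
  · refine h5.trans (hM.trans ?_)
    have e1 : (((C₁ * C₂ : ℕ) : ℝ) * D) ^ C₁ ≤ (((C₁ * C₂ + C₁ : ℕ) : ℝ) * D) ^ (C₁ * C₂ + C₁) := by
      rcases Nat.eq_zero_or_pos C₁ with h0 | h0
      · subst h0
        simp
      · have e2 : (((C₁ * C₂ : ℕ) : ℝ) * D) ≤ ((C₁ * C₂ + C₁ : ℕ) : ℝ) * D := by
          refine mul_le_mul_of_nonneg_right ?_ (by linarith)
          exact_mod_cast Nat.le_add_right _ _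
        have e3 : (1 : ℝ) ≤ ((C₁ * C₂ + C₁ : ℕ) : ℝ) * D := by
          have : 1 ≤ (C₁ * C₂ + C₁) * D := Nat.mul_pos (by omega) hD1
          exact_mod_cast this
        exact (pow_le_pow_left₀ (by positivity) e2 _).trans (pow_le_pow_right₀ e3 (Nat.le_add_left _ _))
    refine e1.trans (pw_mono ?_ hD1)
    rw [hC]
    omega
  · intro k
    have e1 := h3 k K' _ t (x k) h6.nonneg h6 (hxK k) (hx k).1 (hx k).2
    refine e1.mono ?_
    have hC3 : (0 : ℝ) ≤ C₃ k := by linarith [hC₃ k]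
    calc C₃ k * Module.finrank ℚ K' * (1 + ((C₁ : ℝ) * Module.finrank ℚ K') ^ C₁)
        ≤ C₃ k * (C₂ * D) * (1 + (((C₁ * C₂ : ℕ) : ℝ) * D) ^ C₁) := by
          refine mul_le_mul (mul_le_mul_of_nonneg_left hrk' hC3) (by linarith) (by positivity)
            (by positivity)
      _ = C₃ k * C₂ * D * (1 + (((C₁ * C₂ : ℕ) : ℝ) * D) ^ C₁) := by ring
      _ ≤ ((E k : ℝ) * D) ^ E k := h4 k D hD1
      _ ≤ ((C : ℝ) * D) ^ C := by
          refine pw_mono ?_ hD1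
          have : E k ≤ ∑ k, E k := Finset.single_le_sum (fun _ _ => Nat.zero_le _) (Finset.mem_univ k)
          rw [hC]
          omega

/-- there is a point of the projective line where the first function is infinite and the second is not -/
def OneP (A B : Fin n → Polynomial Qb) (a b : Fin n) : Prop :=
  (∃ c : Qb, (B a).eval c = 0 ∧ (B b).eval c ≠ 0) ∨
    ((B a).natDegree < (A a).natDegree ∧ (A b).natDegree ≤ (B b).natDegree)

theorem pair_mob (hc : ∀ i, IsCoprime (A i) (B i)) (hd : ∀ i, 1 ≤ rdeg (A i) (B i))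
    (hP : PairAll) {a b : Fin n} (hab : OneP A B a b) :
    ∃ (C : ℕ) (T : Set ℂ), T.Finite ∧ ∀ (t : ℂ) (x : Fin n → ℂ), t ∉ T →
      (∀ k, (aeval t (B k) : ℂ) ≠ 0 ∧ (aeval t (A k) : ℂ) = x k * aeval t (B k)) →
      NCM (x b) → (∃ N, 0 < N ∧ IsogDeg N (x b) (x a)) →
      ∀ (K : IntermediateField ℚ ℂ) [FiniteDimensional ℚ K], x a ∈ K →
        ∃ K' : IntermediateField ℚ ℂ, K ≤ K' ∧ FiniteDimensional ℚ K' ∧
          (Module.finrank ℚ K' : ℝ) ≤ C * Module.finrank ℚ K ∧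
          (mdeg (x b) (x a) : ℝ) ≤ ((C : ℝ) * Module.finrank ℚ K) ^ C ∧
          ∀ k, Bd K' (((C : ℝ) * Module.finrank ℚ K) ^ C) (x k) := by
  rcases hab with ⟨c, hca, hcb⟩ | ⟨ha, hb⟩
  · choose A' B' h1 h2 h3 h4 h5 using fun k => mob c (hc k) (hd k)
    obtain ⟨C, T, hT, h⟩ := pair_inf h1 (fun i => by rw [h2]; exact hd i) hP (h4 a hca) (h5 b hcb)
    refine ⟨C, {(c : ℂ)} ∪ (fun z : ℂ => c + z⁻¹) '' T, (Set.finite_singleton _).union (hT.image _),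
      fun t x ht hx hncm hiso K _ hK => ?_⟩
    have htc : t ≠ c := fun h => ht (Or.inl h)
    have hz : (t - (c : ℂ))⁻¹ ≠ 0 := inv_ne_zero (sub_ne_zero.2 htc)
    refine h (t - (c : ℂ))⁻¹ x ?_ (fun k => ?_) hncm hiso K hK
    · intro hmem
      apply ht
      refine Or.inr ⟨(t - (c : ℂ))⁻¹, hmem, ?_⟩
      show (c : ℂ) + ((t - (c : ℂ))⁻¹)⁻¹ = t
      rw [inv_inv]
      ring
    · obtain ⟨e1, e2⟩ := h3 k t htc
      rw [e1, e2]
      refine ⟨mul_ne_zero (pow_ne_zero _ hz) (hx k).1, ?_⟩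
      rw [(hx k).2]
      ring
  · exact pair_inf hc hd hP ha hb

end Pool.Agent.LGO.ZF
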