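import Mathlib
import Pool.Agent.LGO.ZF.Pair
import Pool.Agent.LGO.ZF.Defs
import Pool.Agent.LGO.PWG.Fin
import Pool.Agent.LGO.PWG.Types
import Pool.Agent.LGO.Gal.NCM
import Pool.Agent.LGO.Gal.Fin
import Pool.Agent.LGO.CM.Conj
import Pool.Agent.LGO.PW.Conj

/-!
# LGO/ZF: the pair theorem and the counting theorem imply finiteness

`stab`: a set closed over `Qb` is stable under the automorphisms of `ℂ` fixing a number field.
`glue`: `fin_abs` for coordinates of the points of `V`.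
`Par V A B`: all but finitely many points of `V` are given by `x k = A k (t) / B k (t)`.
`t1_of`, `t2_of`, `t3_of`: finiteness of the points of the types 1, 2, 3 on `V`, if for each pair of isogenous
coordinates there is a point where only one of them is infinite.
-/

namespace Pool.Agent.LGO.ZF

open Polynomial UpperHalfPlane Pool.Agent.Hhelper14.ZP Pool.Agent.Hhelper14.ZPL Pool.Agent.LGO
  Pool.Agent.LGO.U Pool.Agent.LGO.PWG

variable {n : ℕ}

private theorem Glue_fix (α : ℂ ≃+* ℂ) (p : MvPolynomial (Fin n) Qb)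
    (hα : ∀ d ∈ p.support, α ((MvPolynomial.coeff d p : Qb) : ℂ) = ((MvPolynomial.coeff d p : Qb) : ℂ))
    (x : Fin n → ℂ) :
    (MvPolynomial.aeval (fun c => α (x c)) p : ℂ) = α (MvPolynomial.aeval x p) := by
  rw [MvPolynomial.aeval_def, MvPolynomial.aeval_def, MvPolynomial.eval₂_eq, MvPolynomial.eval₂_eq,
    map_sum]
  refine Finset.sum_congr rfl fun d hd => ?_
  rw [map_mul, map_prod]
  have h1 : algebraMap Qb ℂ (MvPolynomial.coeff d p) = ((MvPolynomial.coeff d p : Qb) : ℂ) := rfl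
  rw [h1, hα d hd]
  simp only [map_pow]

theorem stab {V : Set (Fin n → ℂ)} (hVk : KClosed V) : ∃ k₀ : IntermediateField ℚ ℂ,
    FiniteDimensional ℚ k₀ ∧ ∀ s : ℂ ≃+* ℂ, (∀ z ∈ k₀, s z = z) → ∀ x ∈ V, (fun c => s (x c)) ∈ V := by
  classical
  obtain ⟨G, hG⟩ : (MvPolynomial.vanishingIdeal Qb V : Ideal (MvPolynomial (Fin n) Qb)).FG :=
    IsNoetherian.noetherian _
  set T : Finset ℂ :=
    G.biUnion fun g => g.support.image fun d => ((MvPolynomial.coeff d g : Qb) : ℂ) with hT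
  have hTint : ∀ z ∈ (T : Set ℂ), IsIntegral ℚ z := by
    intro z hz
    obtain ⟨g, -, hz⟩ := Finset.mem_biUnion.mp (Finset.mem_coe.mp hz)
    obtain ⟨d, -, rfl⟩ := Finset.mem_image.mp hz
    have h5 : IsAlgebraic ℚ ((MvPolynomial.coeff d g : Qb) : ℂ) :=
      mem_algebraicClosure_iff.mp (MvPolynomial.coeff d g : Qb).2
    exact h5.isIntegral
  refine ⟨IntermediateField.adjoin ℚ (T : Set ℂ), IntermediateField.finiteDimensional_adjoin hTint,
    fun s hs x hx => ?_⟩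
  have hfix : ∀ z ∈ T, s z = z := fun z hz => hs z (IntermediateField.subset_adjoin ℚ _ hz)
  refine kclosed_iff.mp hVk _ fun p hp => ?_
  have h4 : (MvPolynomial.vanishingIdeal Qb V : Ideal (MvPolynomial (Fin n) Qb)) ≤
      RingHom.ker (MvPolynomial.aeval (fun c => s (x c)) : MvPolynomial (Fin n) Qb →ₐ[Qb] ℂ) := by
    rw [← hG]
    refine Ideal.span_le.mpr fun g hg => ?_
    have hg' : g ∈ (MvPolynomial.vanishingIdeal Qb V : Ideal (MvPolynomial (Fin n) Qb)) := by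
      rw [← hG]
      exact Ideal.subset_span hg
    change MvPolynomial.aeval (fun c => s (x c)) g = (0 : ℂ)
    rw [Glue_fix s g (fun d hd => hfix _ (Finset.mem_biUnion.mpr ⟨g, hg,
      Finset.mem_image.mpr ⟨d, hd, rfl⟩⟩)) x, (MvPolynomial.mem_vanishingIdeal_iff.mp hg') x hx,
      map_zero]
  exact h4 hp

theorem glue {mm : ℕ} {V : Set (Fin n → ℂ)} (hVk : KClosed V) (i : Fin mm → Fin n)
    {Q : ℝ → (Fin mm → ℂ) → Prop} (hQ : Cble Q)
    (hA : Atl {y : Fin mm → ℂ | ∃ x ∈ V, y = fun a => x (i a)})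
    (hfib : ∀ y : Fin mm → ℂ, {x ∈ V | y = fun a => x (i a)}.Finite)
    {T : Set (Fin n → ℂ)} (hTV : T ⊆ V) (C : ℕ) (hal : ∀ x ∈ T, ∀ a, IsAlgebraic ℚ (x (i a)))
    (hT : ∀ x ∈ T, ∀ s : ℂ ≃+* ℂ,
      Q (((C : ℝ) * Module.finrank ℚ (IntermediateField.adjoin ℚ (Set.range fun a => x (i a)))) ^ C + 2)
        (fun a => s (x (i a))) ∧
      ∀ a, ‖s (x (i a))‖ ≤ Real.exp
        (((C : ℝ) * Module.finrank ℚ (IntermediateField.adjoin ℚ (Set.range fun a => x (i a)))) ^ C + 2)) :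
    T.Finite := by
  obtain ⟨k₀, hk₀, hs⟩ := stab hVk
  have h1 : ((fun (x : Fin n → ℂ) (a : Fin mm) => x (i a)) '' T).Finite := by
    refine fin_abs hQ hA k₀ ?_ ?_ C ?_ ?_
    · rintro s hsk y ⟨x, hx, rfl⟩
      exact ⟨_, hs s hsk x hx, rfl⟩
    · rintro _ ⟨x, hx, rfl⟩
      exact ⟨x, hTV hx, rfl⟩
    · rintro _ ⟨x, hx, rfl⟩ a
      exact hal x hx a
    · rintro _ ⟨x, hx, rfl⟩ s
      exact hT x hx s
  refine (h1.biUnion (t := fun y => {x ∈ V | y = fun a => x (i a)}) fun y _ => hfib y).subset ?_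
  intro x hx
  exact Set.mem_biUnion (Set.mem_image_of_mem _ hx) ⟨hTV hx, rfl⟩

/-- data of a rational curve -/
structure Par (V : Set (Fin n → ℂ)) (A B : Fin n → Polynomial Qb) : Prop where
  irr : Pool.Agent.Hhelper14.ZPL.IsIrredClosed V
  kcl : KClosed V
  dim : Pool.Agent.Hhelper14.ZPL.dim V = 1
  nc : ∀ (i : Fin n) (c : ℂ), ∃ x ∈ V, x i ≠ c
  nomod : ∀ a b : Fin n, a ≠ b → ∀ g : GL (Fin 2) ℚ, 0 < g.det.val →
    ∃ x ∈ V, ¬ ∃ τ : ℍ, x a = jInv τ ∧ x b = jInv (gact g τ)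
  cop : ∀ i, IsCoprime (A i) (B i)
  deg : ∀ i, 1 ≤ rdeg (A i) (B i)
  par : ∃ E : Set (Fin n → ℂ), E.Finite ∧ ∀ x ∈ V, x ∉ E →
    ∃ t : ℂ, ∀ i, (aeval t (B i) : ℂ) ≠ 0 ∧ x i * aeval t (B i) = aeval t (A i)

variable {V : Set (Fin n → ℂ)} {A B : Fin n → Polynomial Qb}

theorem Par.fib (h : Par V A B) (k : Fin n) (c : ℂ) : {x ∈ V | x k = c}.Finite := by
  have hZ : IsZClosed {x : Fin n → ℂ | x k = c} := by
    refine Set.Subset.antisymm ?_ (subset_closure' _)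
    intro x hx
    rw [MvPolynomial.mem_zeroLocus_iff] at hx
    have h1 := hx (MvPolynomial.X k - MvPolynomial.C c) (by
      rw [MvPolynomial.mem_vanishingIdeal_iff]
      intro y hy
      have hy' : y k = c := hy
      simp [hy'])
    have h2 : x k - c = 0 := by simpa using h1
    exact sub_eq_zero.1 h2
  have h1 := finite_inter h.irr h.dim hZ (fun hsub => by
    obtain ⟨x, hx, hne⟩ := h.nc k c
    exact hne (hsub hx))
  exact h1

theorem Par.fibs (h : Par V A B) {mm : ℕ} (hm : 0 < mm) (i : Fin mm → Fin n) (y : Fin mm → ℂ) :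
    {x ∈ V | y = fun a => x (i a)}.Finite := by
  refine (h.fib (i ⟨0, hm⟩) (y ⟨0, hm⟩)).subset ?_
  rintro x ⟨hx, rfl⟩
  exact ⟨hx, rfl⟩

/-- the points with the parameter in a finite set -/
theorem fin_par {T : Set ℂ} (hT : T.Finite) :
    {x : Fin n → ℂ | ∃ t ∈ T, ∀ k, (aeval t (B k) : ℂ) ≠ 0 ∧ x k * aeval t (B k) = aeval t (A k)}.Finite := by
  refine (hT.image fun t => fun k => (aeval t (A k) / aeval t (B k) : ℂ)).subset ?_
  rintro x ⟨t, ht, hx⟩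
  refine ⟨t, ht, funext fun k => ?_⟩
  change (aeval t (A k) / aeval t (B k) : ℂ) = x k
  rw [← (hx k).2, mul_div_cancel_right₀ _ (hx k).1]

/-- the bounds for a pair of isogenous coordinates, in both directions -/
theorem Par.pair (h : Par V A B) (hP : PairAll) {a b : Fin n} (hab : OneP A B a b ∨ OneP A B b a) :
    ∃ (C : ℕ) (E : Set (Fin n → ℂ)), E.Finite ∧ ∀ x ∈ V, x ∉ E → NCM (x a) → NCM (x b) →
      HeckeRel (x a) (x b) → ∀ (K : IntermediateField ℚ ℂ) [FiniteDimensional ℚ K],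
        x a ∈ K → x b ∈ K →
        ∃ K' : IntermediateField ℚ ℂ, K ≤ K' ∧ FiniteDimensional ℚ K' ∧
          (Module.finrank ℚ K' : ℝ) ≤ C * Module.finrank ℚ K ∧
          (mdeg (x a) (x b) : ℝ) ≤ ((C : ℝ) * Module.finrank ℚ K) ^ C ∧
          ∀ k, Bd K' (((C : ℝ) * Module.finrank ℚ K) ^ C) (x k) := by
  obtain ⟨E, hE, hpar⟩ := h.par
  rcases hab with hab | hab
  · obtain ⟨C, T, hT, h1⟩ := pair_mob h.cop h.deg hP hab
    refine ⟨C, E ∪ _, hE.union (fin_par (A := A) (B := B) hT), ?_⟩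
    intro x hx hxE ha hb hab' K _ hKa hKb
    obtain ⟨t, ht⟩ := hpar x hx fun h => hxE (Or.inl h)
    have htT : t ∉ T := fun h => hxE (Or.inr ⟨t, h, ht⟩)
    obtain ⟨N, hN, hiso⟩ := heckeRel_iff.mp hab'
    obtain ⟨K', h2, h3, h4, h5, h6⟩ :=
      h1 t x htT (fun k => ⟨(ht k).1, (ht k).2.symm⟩) hb ⟨N, hN, hiso.symm⟩ K hKa
    exact ⟨K', h2, h3, h4, by rw [mdeg_symm]; exact h5, h6⟩
  · obtain ⟨C, T, hT, h1⟩ := pair_mob h.cop h.deg hP hab
    refine ⟨C, E ∪ _, hE.union (fin_par (A := A) (B := B) hT), ?_⟩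
    intro x hx hxE ha hb hab' K _ hKa hKb
    obtain ⟨t, ht⟩ := hpar x hx fun h => hxE (Or.inl h)
    have htT : t ∉ T := fun h => hxE (Or.inr ⟨t, h, ht⟩)
    obtain ⟨N, hN, hiso⟩ := heckeRel_iff.mp hab'
    obtain ⟨K', h2, h3, h4, h5, h6⟩ :=
      h1 t x htT (fun k => ⟨(ht k).1, (ht k).2.symm⟩) ha ⟨N, hN, hiso⟩ K hKb
    exact ⟨K', h2, h3, h4, h5, h6⟩

/-- isogenous coordinates of bounded degree, at all conjugates -/
theorem isoLe_of {x y : ℂ} (h : HeckeRel x y) {H : ℝ} (hH : (mdeg x y : ℝ) ≤ H) (s : ℂ ≃+* ℂ) :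
    IsoLe H (s x) (s y) := by
  obtain ⟨h1, h2⟩ := mdeg_spec (heckeRel_iff.mp h)
  exact ⟨mdeg x y, h1, hH, isogDeg_map s h1 h2⟩

private theorem Glue_mono {C C' : ℕ} (h : C ≤ C') {K : IntermediateField ℚ ℂ} [FiniteDimensional ℚ K] :
    ((C : ℝ) * Module.finrank ℚ K) ^ C ≤ ((C' : ℝ) * Module.finrank ℚ K) ^ C' + 2 := by
  have := pw_mono h (D := Module.finrank ℚ K) Module.finrank_pos
  linarith

private theorem Glue_fd {mm : ℕ} {y : Fin mm → ℂ} (hy : ∀ a, IsAlgebraic ℚ (y a)) :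
    FiniteDimensional ℚ (IntermediateField.adjoin ℚ (Set.range y)) := by
  refine IntermediateField.finiteDimensional_adjoin ?_
  rintro z ⟨a, rfl⟩
  exact (hy a).isIntegral

/-- **type 2**: two pairs of isogenous coordinates -/
theorem t2_of (h : Par V A B) (hP : PairAll) (i : Fin 4 → Fin n) (hi : Function.Injective i)
    (h01 : OneP A B (i 0) (i 1) ∨ OneP A B (i 1) (i 0))
    (h23 : OneP A B (i 2) (i 3) ∨ OneP A B (i 3) (i 2))
    (hA : Atl {y : Fin 4 → ℂ | ∃ x ∈ V, y = fun a => x (i a)}) :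
    {x ∈ V | (∀ a, NCM (x (i a))) ∧ HeckeRel (x (i 0)) (x (i 1)) ∧
      HeckeRel (x (i 2)) (x (i 3))}.Finite := by
  obtain ⟨C₁, E₁, hE₁, h1⟩ := h.pair hP h01
  obtain ⟨C₂, E₂, hE₂, h2⟩ := h.pair hP h23
  refine Set.Finite.subset (s := (E₁ ∪ E₂) ∪ ({x ∈ V | (∀ a, NCM (x (i a))) ∧
    HeckeRel (x (i 0)) (x (i 1)) ∧ HeckeRel (x (i 2)) (x (i 3))} \ (E₁ ∪ E₂))) ?_ ?_
  · refine (hE₁.union hE₂).union ?_
    have hal : ∀ x ∈ {x ∈ V | (∀ a, NCM (x (i a))) ∧ HeckeRel (x (i 0)) (x (i 1)) ∧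
        HeckeRel (x (i 2)) (x (i 3))} \ (E₁ ∪ E₂), ∀ a, IsAlgebraic ℚ (x (i a)) := by
      rintro x ⟨⟨hxV, -, hx, -⟩, -⟩ a
      exact PW.alg_of_isog h.irr h.kcl h.dim (hi.ne (by decide : (0 : Fin 4) ≠ 1))
        (h.nomod _ _ (hi.ne (by decide))) hxV (heckeRel_iff.mp hx) (i a)
    refine glue h.kcl i cble2 hA (h.fibs (by omega) i) (fun x hx => hx.1.1) (C₁ + C₂) hal ?_
    intro x hx s
    have hfd := Glue_fd (hal x hx)
    obtain ⟨⟨hxV, hncm, hx1, hx2⟩, hxE⟩ := hx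
    have hmem : ∀ a, x (i a) ∈ IntermediateField.adjoin ℚ (Set.range fun a => x (i a)) :=
      fun a => IntermediateField.subset_adjoin ℚ _ ⟨a, rfl⟩
    obtain ⟨K₁, -, -, -, h3, h4⟩ := h1 x hxV (fun h => hxE (Or.inl h)) (hncm 0) (hncm 1) hx1
      (IntermediateField.adjoin ℚ (Set.range fun a => x (i a))) (hmem 0) (hmem 1)
    obtain ⟨K₂, -, -, -, h5, -⟩ := h2 x hxV (fun h => hxE (Or.inr h)) (hncm 2) (hncm 3) hx2
      (IntermediateField.adjoin ℚ (Set.range fun a => x (i a))) (hmem 2) (hmem 3)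
    refine ⟨⟨isoLe_of hx1 (h3.trans (Glue_mono (by omega))) s,
      isoLe_of hx2 (h5.trans (Glue_mono (by omega))) s⟩, fun a => ?_⟩
    exact ((h4 (i a)).aut s).trans (Real.exp_le_exp.2 (Glue_mono (by omega)))
  · intro x hx
    by_cases hxE : x ∈ E₁ ∪ E₂
    · exact Or.inl hxE
    · exact Or.inr ⟨hx, hxE⟩

/-- **type 1**: three isogenous coordinates -/
theorem t1_of (h : Par V A B) (hP : PairAll) (i : Fin 3 → Fin n) (hi : Function.Injective i)
    (h01 : OneP A B (i 0) (i 1) ∨ OneP A B (i 1) (i 0))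
    (h02 : OneP A B (i 0) (i 2) ∨ OneP A B (i 2) (i 0))
    (h12 : OneP A B (i 1) (i 2) ∨ OneP A B (i 2) (i 1))
    (hA : Atl {y : Fin 3 → ℂ | ∃ x ∈ V, y = fun a => x (i a)}) :
    {x ∈ V | (∀ a, NCM (x (i a))) ∧ HeckeRel (x (i 0)) (x (i 1)) ∧
      HeckeRel (x (i 0)) (x (i 2))}.Finite := by
  obtain ⟨C₁, E₁, hE₁, h1⟩ := h.pair hP h01
  obtain ⟨C₂, E₂, hE₂, h2⟩ := h.pair hP h02
  obtain ⟨C₃, E₃, hE₃, h3⟩ := h.pair hP h12
  refine Set.Finite.subset (s := (E₁ ∪ E₂ ∪ E₃) ∪ ({x ∈ V | (∀ a, NCM (x (i a))) ∧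
    HeckeRel (x (i 0)) (x (i 1)) ∧ HeckeRel (x (i 0)) (x (i 2))} \ (E₁ ∪ E₂ ∪ E₃))) ?_ ?_
  · refine ((hE₁.union hE₂).union hE₃).union ?_
    have hal : ∀ x ∈ {x ∈ V | (∀ a, NCM (x (i a))) ∧ HeckeRel (x (i 0)) (x (i 1)) ∧
        HeckeRel (x (i 0)) (x (i 2))} \ (E₁ ∪ E₂ ∪ E₃), ∀ a, IsAlgebraic ℚ (x (i a)) := by
      rintro x ⟨⟨hxV, -, hx, -⟩, -⟩ a
      exact PW.alg_of_isog h.irr h.kcl h.dim (hi.ne (by decide : (0 : Fin 3) ≠ 1))
        (h.nomod _ _ (hi.ne (by decide))) hxV (heckeRel_iff.mp hx) (i a)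
    refine glue h.kcl i cble1 hA (h.fibs (by omega) i) (fun x hx => hx.1.1) (C₁ + C₂ + C₃ + 1) hal ?_
    intro x hx s
    have hfd := Glue_fd (hal x hx)
    obtain ⟨⟨hxV, hncm, hx1, hx2⟩, hxE⟩ := hx
    have hx3 : HeckeRel (x (i 1)) (x (i 2)) := HeckeRel.trans' (HeckeRel.symm' hx1) hx2
    have hmem : ∀ a, x (i a) ∈ IntermediateField.adjoin ℚ (Set.range fun a => x (i a)) :=
      fun a => IntermediateField.subset_adjoin ℚ _ ⟨a, rfl⟩
    obtain ⟨K₁, -, -, -, h4, h5⟩ := h1 x hxV (fun h => hxE (Or.inl (Or.inl h))) (hncm 0) (hncm 1) hx1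
      (IntermediateField.adjoin ℚ (Set.range fun a => x (i a))) (hmem 0) (hmem 1)
    obtain ⟨K₂, -, -, -, h6, -⟩ := h2 x hxV (fun h => hxE (Or.inl (Or.inr h))) (hncm 0) (hncm 2) hx2
      (IntermediateField.adjoin ℚ (Set.range fun a => x (i a))) (hmem 0) (hmem 2)
    obtain ⟨K₃, -, -, -, h7, -⟩ := h3 x hxV (fun h => hxE (Or.inr h)) (hncm 1) (hncm 2) hx3
      (IntermediateField.adjoin ℚ (Set.range fun a => x (i a))) (hmem 1) (hmem 2)
    refine ⟨?_, fun a => ?_⟩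
    · have hrefl : ∀ (H : ℝ) (z : ℂ), 0 ≤ H → IsoLe (H + 2) z z := by
        intro H z hH
        refine ⟨1, one_pos, ?_, IsogDeg.refl z⟩
        push_cast
        linarith
      have e01 := isoLe_of hx1 (h4.trans (Glue_mono (C' := C₁ + C₂ + C₃ + 1) (by omega))) s
      have e02 := isoLe_of hx2 (h6.trans (Glue_mono (C' := C₁ + C₂ + C₃ + 1) (by omega))) s
      have e12 := isoLe_of hx3 (h7.trans (Glue_mono (C' := C₁ + C₂ + C₃ + 1) (by omega))) s
      have esymm : ∀ {H : ℝ} {u v : ℂ}, IsoLe H u v → IsoLe H v u := by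
        rintro H u v ⟨N, h1, h2, h3⟩
        exact ⟨N, h1, h2, h3.symm⟩
      intro a b
      fin_cases a <;> fin_cases b
      · exact hrefl _ _ (by positivity)
      · exact e01
      · exact e02
      · exact esymm e01
      · exact hrefl _ _ (by positivity)
      · exact e12
      · exact esymm e02
      · exact esymm e12
      · exact hrefl _ _ (by positivity)
    · exact ((h5 (i a)).aut s).trans (Real.exp_le_exp.2 (Glue_mono (by omega)))
  · intro x hx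
    by_cases hxE : x ∈ E₁ ∪ E₂ ∪ E₃
    · exact Or.inl hxE
    · exact Or.inr ⟨hx, hxE⟩

/-- **type 3**: a pair of isogenous coordinates and a singular modulus -/
theorem t3_of (h : Par V A B) (hP : PairAll) (i : Fin 3 → Fin n) (hi : Function.Injective i)
    (h01 : OneP A B (i 0) (i 1) ∨ OneP A B (i 1) (i 0))
    (hA : Atl {y : Fin 3 → ℂ | ∃ x ∈ V, y = fun a => x (i a)}) :
    {x ∈ V | NCM (x (i 0)) ∧ NCM (x (i 1)) ∧ HeckeRel (x (i 0)) (x (i 1)) ∧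
      IsCMVal (x (i 2))}.Finite := by
  obtain ⟨C₁, E₁, hE₁, h1⟩ := h.pair hP h01
  obtain ⟨C₂, h2⟩ := cm_conj
  set E : Set (Fin n → ℂ) := E₁ ∪ ({x ∈ V | x (i 2) = 0} ∪ {x ∈ V | x (i 2) = 1728}) with hEdef
  have hE : E.Finite := hE₁.union ((h.fib (i 2) 0).union (h.fib (i 2) 1728))
  refine Set.Finite.subset (s := E ∪ ({x ∈ V | NCM (x (i 0)) ∧ NCM (x (i 1)) ∧
    HeckeRel (x (i 0)) (x (i 1)) ∧ IsCMVal (x (i 2))} \ E)) ?_ ?_
  · refine hE.union ?_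
    have hal : ∀ x ∈ {x ∈ V | NCM (x (i 0)) ∧ NCM (x (i 1)) ∧ HeckeRel (x (i 0)) (x (i 1)) ∧
        IsCMVal (x (i 2))} \ E, ∀ a, IsAlgebraic ℚ (x (i a)) := by
      rintro x ⟨⟨hxV, -, -, hx, -⟩, -⟩ a
      exact PW.alg_of_isog h.irr h.kcl h.dim (hi.ne (by decide : (0 : Fin 3) ≠ 1))
        (h.nomod _ _ (hi.ne (by decide))) hxV (heckeRel_iff.mp hx) (i a)
    -- the constant
    set F : ℕ := C₁ + 2 with hF
    refine glue h.kcl i cble3 hA (h.fibs (by omega) i) (fun x hx => hx.1.1) (F * (C₂ + 1)) hal ?_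
    intro x hx s
    have hfd := Glue_fd (hal x hx)
    obtain ⟨⟨hxV, hn0, hn1, hx1, hcm⟩, hxE⟩ := hx
    set K := IntermediateField.adjoin ℚ (Set.range fun a => x (i a)) with hK
    have hmem : ∀ a, x (i a) ∈ K := fun a => IntermediateField.subset_adjoin ℚ _ ⟨a, rfl⟩
    obtain ⟨K₁, -, hK₁, h3, h4, h5⟩ := h1 x hxV (fun h => hxE (Or.inl h)) hn0 hn1 hx1 K
      (hmem 0) (hmem 1)
    set D : ℕ := Module.finrank ℚ K with hD
    have hD1 : 1 ≤ D := Module.finrank_pos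
    have hD1' : (1 : ℝ) ≤ D := by exact_mod_cast hD1
    set M : ℝ := ((F : ℝ) * D) ^ F with hM
    have hFD : (2 : ℝ) ≤ (F : ℝ) * D := by
      have : (2 : ℝ) ≤ F := by rw [hF]; push_cast; linarith [(Nat.cast_nonneg C₁ : (0 : ℝ) ≤ C₁)]
      nlinarith
    have hM2 : 2 ≤ M := by
      rw [hM]
      exact hFD.trans (le_self_pow₀ (by linarith) (by omega))
    have hCM : ((C₁ : ℝ) * D) ^ C₁ ≤ M := pw_mono (by omega) hD1
    have hKM : (Module.finrank ℚ K₁ : ℝ) ≤ M := by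
      refine h3.trans ?_
      calc (C₁ : ℝ) * D ≤ F * D := by
            refine mul_le_mul_of_nonneg_right ?_ (by linarith)
            exact_mod_cast (by omega : C₁ ≤ F)
        _ ≤ M := le_self_pow₀ (by linarith) (by omega)
    have hMC : ∀ j ≤ C₂ + 1, M ^ j ≤ (((F * (C₂ + 1) : ℕ) : ℝ) * D) ^ (F * (C₂ + 1)) := by
      intro j hj
      have e1 : M ^ j ≤ ((F : ℝ) * D) ^ (F * (C₂ + 1)) := by
        rw [hM, ← pow_mul]
        exact pow_le_pow_right₀ (by linarith) (Nat.mul_le_mul_left _ hj)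
      refine e1.trans (pow_le_pow_left₀ (by linarith) ?_ _)
      refine mul_le_mul_of_nonneg_right ?_ (by linarith)
      exact_mod_cast Nat.le_mul_of_pos_right _ (Nat.succ_pos _)
    have hMle : M ≤ (((F * (C₂ + 1) : ℕ) : ℝ) * D) ^ (F * (C₂ + 1)) + 2 := by
      have := hMC 1 (by omega)
      rw [pow_one] at this
      linarith
    have hMCle : M ^ C₂ ≤ (((F * (C₂ + 1) : ℕ) : ℝ) * D) ^ (F * (C₂ + 1)) + 2 := by
      have := hMC C₂ (by omega)
      linarith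
    have h0 : x (i 2) ≠ 0 := fun h0 => hxE (Or.inr (Or.inl ⟨hxV, h0⟩))
    have h1728 : x (i 2) ≠ 1728 := fun h0 => hxE (Or.inr (Or.inr ⟨hxV, h0⟩))
    have hncm : ¬ NCM (x (i 2)) := by rw [ncm_iff, not_not]; exact hcm
    obtain ⟨τ, a, b, c, -, hj, hq, ha, hb, hc⟩ :=
      h2 K₁ M (x (i 2)) hM2 hKM ((h5 (i 2)).mono hCM) h0 h1728 hncm s
    refine ⟨⟨isoLe_of hx1 ((h4.trans hCM).trans hMle) s, ⟨τ, hj.symm, τ.im_pos, ![a, b, c], ?_, ?_, ?_⟩⟩,
      fun a => ?_⟩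
    · intro h6
      have h7 := congrFun h6 0
      have h8 : a = 0 := h7
      exact hq.pos.ne' h8
    · intro k
      fin_cases k
      · have h6 : |(a : ℝ)| = a := abs_of_pos (by exact_mod_cast hq.pos)
        change |(a : ℝ)| ≤ _
        rw [h6]
        exact ha.trans hMCle
      · exact hb.trans hMCle
      · exact hc.trans hMCle
    · exact hq.eq
    · exact ((h5 (i a)).aut s).trans (Real.exp_le_exp.2 (hCM.trans hMle))
  · intro x hx
    by_cases hxE : x ∈ E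
    · exact Or.inl hxE
    · exact Or.inr ⟨hx, hxE⟩

end Pool.Agent.LGO.ZF
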