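import Mathlib
import Pool.Agent.LGO.ZF.CurC
import Pool.Agent.LGO.CK.ClsB

/-!
# LGO/ZF: two singular moduli
-/

namespace Pool.Agent.LGO.ZF

open Polynomial UpperHalfPlane Pool.Agent.Hhelper14.ZP Pool.Agent.Hhelper14.ZPL

variable {n : ℕ} {A B : Fin n → Polynomial Qb}

theorem curve_T4 (h : Gen A B) : T4 (curve A B) := by
  intro i hi
  have hn : 0 < n := Nat.pos_of_ne_zero (by
    rintro rfl
    exact (i 0).elim0)
  obtain ⟨E, hE, hpar⟩ := curve_par h
  have hne : i 0 ≠ i 1 := fun h => absurd (hi h) (by decide)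
  exact CK.t4 (curve_irred h.ne) (curve_dim h hn) (curve_nc h (i 0)) (curve_nc h (i 1)) (h.ne _)
    (h.ne _) (h.cop _) (h.cop _) (h.nopole _ _ hne) hE (fun x hx hxE => by
      obtain ⟨t, ht⟩ := hpar x hx hxE
      exact ⟨t, (ht _).1, (ht _).1, (ht _).2, (ht _).2⟩)

end Pool.Agent.LGO.ZF
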