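import Mathlib
import Pool.Agent.LGO.ZF.CurA
import Pool.Agent.LGO.H.Use

/-!
# LGO/ZF: no two coordinates of a generic rational curve are modular related

Suppose `x b` and `x a` are related by `g` for all `x ∈ curve A B`: `IsogDeg N (x a) (x b)` with one `N` (`N` from `g`;
see `heckeRel_iff` in `LGO/Gal/Basic.lean` and its proof, `IsogDeg` is defined with an integral matrix of determinant
`N`: multiply `g` by a common denominator).  `log_le` in `LGO/H/Use.lean`: `‖x b‖` is bounded in terms of `N` and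
`‖x a‖`.  Let `c` be a pole of `A b / B b`: a zero of `B b` in `ℂ` (it lies in `Qb`), or `∞` if `B b` is constant
(`nc`: then `deg B b < deg A b`).  By `NoCommonPole` `x a = A a / B a` is bounded near `c` (continuous at `c`, or
`deg A a ≤ deg B a`), and `|x b| → ∞` at `c`: contradiction.
-/

namespace Pool.Agent.LGO.ZF

open Polynomial UpperHalfPlane Pool.Agent.Hhelper14.ZP Pool.Agent.Hhelper14.ZPL

variable {n : ℕ} {A B : Fin n → Polynomial Qb}

private theorem CurD_contra {α : Type*} {l : Filter α} [l.NeBot] {u v : α → ℂ} {C M : ℝ} (hC : 0 ≤ C)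
    (h1 : ∀ᶠ t in l, Real.log ‖v t‖ ≤ C * (1 + Real.log (1 + ‖u t‖)))
    (h2 : ∀ᶠ t in l, ‖u t‖ ≤ M) (h3 : Filter.Tendsto (fun t => ‖v t‖) l Filter.atTop) : False := by
  have h4 : Filter.Tendsto (fun t => Real.log ‖v t‖) l Filter.atTop :=
    Real.tendsto_log_atTop.comp h3
  have h5 := h4.eventually_gt_atTop (C * (1 + Real.log (1 + M)))
  obtain ⟨t, ht1, ht2, ht3⟩ := (h1.and (h2.and h5)).exists
  have h6 : Real.log (1 + ‖u t‖) ≤ Real.log (1 + M) := by
    apply Real.log_le_log
    · have := norm_nonneg (u t)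
      linarith
    · linarith
  have h7 : C * (1 + Real.log (1 + ‖u t‖)) ≤ C * (1 + Real.log (1 + M)) :=
    mul_le_mul_of_nonneg_left (by linarith) hC
  linarith

/-- the value at `t` of a polynomial is `t ^ d` times the value at `1 / t` of the reflected polynomial -/
private theorem CurD_reflect (P : Polynomial ℂ) {d : ℕ} (hd : P.natDegree ≤ d) {t : ℂ} (ht : t ≠ 0) :
    P.eval t = (P.reflect d).eval t⁻¹ * t ^ d := by
  have hi : Invertible t := invertibleOfNonzero ht
  have h := Polynomial.eval₂_reflect_mul_pow (RingHom.id ℂ) t d P hd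
  rw [invOf_eq_inv] at h
  exact h.symm

theorem curve_nomod (h : Gen A B) {a b : Fin n} (hab : a ≠ b) (g : GL (Fin 2) ℚ)
    (hg : 0 < g.det.val) :
    ∃ x ∈ curve A B, ¬ ∃ τ : ℍ, x a = jInv τ ∧ x b = jInv (gact g τ) := by
  by_contra hcon
  push Not at hcon
  obtain ⟨N, hN, A', hA'⟩ := exists_integral hg
  obtain ⟨C, hC, hlog⟩ := log_le
  have hCN : (0 : ℝ) ≤ C * N := mul_nonneg (by linarith) (Nat.cast_nonneg N)
  have key : ∀ t : ℂ, (∀ i, (aeval t (B i) : ℂ) ≠ 0) →
      Real.log ‖(aeval t (A b) / aeval t (B b) : ℂ)‖ ≤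
        C * N * (1 + Real.log (1 + ‖(aeval t (A a) / aeval t (B a) : ℂ)‖)) := by
    intro t ht
    obtain ⟨τ, h1, h2⟩ := hcon (fun i => (aeval t (A i) / aeval t (B i) : ℂ))
      (img_subset ⟨t, fun i => ⟨ht i, rfl⟩⟩)
    refine hlog N _ _ hN ?_
    exact (Gal.isogDeg_iff hN).mpr ⟨τ, A', h1, by rw [jA, ← hA']; exact h2⟩
  have hnp := h.nopole a b hab
  by_cases hdeg : (B b).natDegree = 0
  · -- the pole at infinity
    have hAb : 0 < (A b).natDegree := by
      have := h.nc b
      rw [hdeg] at this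
      simpa using this
    have hle : (A a).natDegree ≤ (B a).natDegree := by
      by_contra hlt
      push Not at hlt
      exact hnp.2 ⟨hlt, by rw [hdeg]; exact hAb⟩
    -- `B b` is constant
    obtain ⟨c, hc⟩ : ∃ c : Qb, B b = Polynomial.C c := ⟨_, Polynomial.eq_C_of_natDegree_eq_zero hdeg⟩
    have hc0 : (c : ℂ) ≠ 0 := by
      intro h0
      apply h.ne b
      rw [hc]
      have : c = 0 := Subtype.ext h0
      rw [this, map_zero]
    have hinv : Filter.Tendsto (fun t : ℂ => t⁻¹) (Filter.cocompact ℂ) (nhds 0) := by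
      rw [← Metric.cobounded_eq_cocompact]
      exact Filter.tendsto_inv₀_cobounded
    have hne0 : ∀ᶠ t : ℂ in Filter.cocompact ℂ, t ≠ 0 :=
      Filter.cocompact_le_cofinite (Set.finite_singleton (0 : ℂ)).compl_mem_cofinite
    set PA : Polynomial ℂ := (A a).map (algebraMap Qb ℂ) with hPA
    set PB : Polynomial ℂ := (B a).map (algebraMap Qb ℂ) with hPB
    set d := (B a).natDegree with hd
    have hPAd : PA.natDegree ≤ d := by rw [hPA, natDegree_map]; exact hle
    have hPBd : PB.natDegree ≤ d := by rw [hPB, natDegree_map]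
    have hB0 : (PB.reflect d).eval 0 ≠ 0 := by
      rw [← coeff_zero_eq_eval_zero, coeff_reflect]
      have h1 : revAt d 0 = d := by rw [revAt_le (Nat.zero_le d), Nat.sub_zero]
      rw [h1, hPB, coeff_map]
      intro h2
      have h3 : (B a).coeff d = 0 := by
        apply (algebraMap Qb ℂ).injective
        rw [h2, map_zero]
      exact h.ne a (leadingCoeff_eq_zero.1 h3)
    have hlim : Filter.Tendsto (fun t : ℂ => ‖(aeval t (A a) / aeval t (B a) : ℂ)‖) (Filter.cocompact ℂ)
        (nhds ‖(PA.reflect d).eval 0 / (PB.reflect d).eval 0‖) := by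
      have h1 : Filter.Tendsto (fun t : ℂ => ‖(PA.reflect d).eval t⁻¹ / (PB.reflect d).eval t⁻¹‖)
          (Filter.cocompact ℂ) (nhds ‖(PA.reflect d).eval 0 / (PB.reflect d).eval 0‖) := by
        refine (Filter.Tendsto.div ?_ ?_ hB0).norm
        · exact ((PA.reflect d).continuous.tendsto 0).comp hinv
        · exact ((PB.reflect d).continuous.tendsto 0).comp hinv
      refine h1.congr' ?_
      filter_upwards [hne0] with t ht
      have h2 : (aeval t (A a) : ℂ) = (PA.reflect d).eval t⁻¹ * t ^ d := by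
        rw [← CurD_reflect PA hPAd ht, hPA, eval_map_algebraMap]
      have h3 : (aeval t (B a) : ℂ) = (PB.reflect d).eval t⁻¹ * t ^ d := by
        rw [← CurD_reflect PB hPBd ht, hPB, eval_map_algebraMap]
      rw [h2, h3, mul_div_mul_right _ _ (pow_ne_zero _ ht)]
    refine CurD_contra (l := Filter.cocompact ℂ) (u := fun t => (aeval t (A a) / aeval t (B a) : ℂ))
      (v := fun t => (aeval t (A b) / aeval t (B b) : ℂ)) hCN ?_
      (hlim.eventually_le_const (lt_add_one _)) ?_
    · have h1 : ∀ᶠ t : ℂ in Filter.cocompact ℂ, t ∉ {t : ℂ | ∃ i, (aeval t (B i) : ℂ) = 0} :=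
        Filter.cocompact_le_cofinite (finite_poles h.ne).compl_mem_cofinite
      filter_upwards [h1] with t ht
      exact key t fun i hi => ht ⟨i, hi⟩
    · have h1 : Filter.Tendsto (fun t : ℂ => ‖((A b).map (algebraMap Qb ℂ)).eval t‖)
          (Filter.cocompact ℂ) Filter.atTop := by
        refine Polynomial.tendsto_norm_atTop _ ?_ tendsto_norm_cocompact_atTop
        rw [degree_map]
        exact natDegree_pos_iff_degree_pos.1 hAb
      have h2 : Filter.Tendsto (fun t : ℂ => ‖((A b).map (algebraMap Qb ℂ)).eval t‖ / ‖(c : ℂ)‖)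
          (Filter.cocompact ℂ) Filter.atTop :=
        h1.atTop_div_const (norm_pos_iff.2 hc0)
      refine h2.congr fun t => ?_
      rw [norm_div, hc, aeval_C, eval_map_algebraMap]
      rfl
  · -- a finite pole
    have hdeg' : (B b).degree ≠ 0 := by
      intro h0
      exact hdeg (natDegree_eq_of_degree_eq_some h0)
    obtain ⟨c, hc⟩ := IsAlgClosed.exists_root (B b) hdeg'
    have hval : ∀ q : Polynomial Qb, (aeval (c : ℂ) q : ℂ) = ((q.eval c : Qb) : ℂ) := by
      intro q
      have := Polynomial.aeval_algebraMap_apply ℂ c q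
      rw [coe_aeval_eq_eval] at this
      exact this
    have hcont : ∀ q : Polynomial Qb, Filter.Tendsto (fun t : ℂ => (aeval t q : ℂ)) (nhdsWithin (c : ℂ) {(c : ℂ)}ᶜ)
        (nhds (aeval (c : ℂ) q)) := by
      intro q
      have h1 : Continuous (fun t : ℂ => (aeval t q : ℂ)) := by
        have h2 : (fun t : ℂ => (aeval t q : ℂ)) = fun t => (q.map (algebraMap Qb ℂ)).eval t := by
          funext t
          rw [eval_map_algebraMap]
        rw [h2]
        exact Polynomial.continuous _
      exact (h1.tendsto (c : ℂ)).mono_left nhdsWithin_le_nhds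
    have hBb : (aeval (c : ℂ) (B b) : ℂ) = 0 := by
      rw [hval, hc.eq_zero]
      rfl
    have hBa : (aeval (c : ℂ) (B a) : ℂ) ≠ 0 := by
      rw [hval]
      intro h0
      exact hnp.1 c (Subtype.ext h0) hc.eq_zero
    have hAb : (aeval (c : ℂ) (A b) : ℂ) ≠ 0 := by
      intro h0
      obtain ⟨p, q, hpq⟩ := h.cop b
      have := congrArg (fun r : Polynomial Qb => (aeval (c : ℂ) r : ℂ)) hpq
      simp only [map_add, map_mul, map_one, h0, hBb, mul_zero, add_zero] at this
      exact zero_ne_one this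
    have hpoles : ∀ᶠ t : ℂ in nhdsWithin (c : ℂ) {(c : ℂ)}ᶜ, ∀ i, (aeval t (B i) : ℂ) ≠ 0 := by
      have h1 : ({t : ℂ | ∃ i, (aeval t (B i) : ℂ) = 0} \ {(c : ℂ)}).Finite :=
        (finite_poles h.ne).subset Set.sdiff_subset
      have h2 : ({t : ℂ | ∃ i, (aeval t (B i) : ℂ) = 0} \ {(c : ℂ)})ᶜ ∈ nhds (c : ℂ) :=
        h1.isClosed.isOpen_compl.mem_nhds fun hm => hm.2 rfl
      filter_upwards [nhdsWithin_le_nhds h2, self_mem_nhdsWithin] with t ht1 ht2 i hi
      exact ht1 ⟨⟨i, hi⟩, ht2⟩
    refine CurD_contra (l := nhdsWithin (c : ℂ) {(c : ℂ)}ᶜ)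
      (u := fun t => (aeval t (A a) / aeval t (B a) : ℂ))
      (v := fun t => (aeval t (A b) / aeval t (B b) : ℂ)) hCN ?_
      (((hcont (A a)).div (hcont (B a)) hBa).norm.eventually_le_const (lt_add_one _)) ?_
    · filter_upwards [hpoles] with t ht
      exact key t ht
    · have h1 : Filter.Tendsto (fun t : ℂ => ‖(aeval t (B b) : ℂ)‖) (nhdsWithin (c : ℂ) {(c : ℂ)}ᶜ)
          (nhdsWithin 0 (Set.Ioi 0)) := by
        rw [tendsto_nhdsWithin_iff]
        refine ⟨?_, ?_⟩
        · have := (hcont (B b)).norm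
          rwa [hBb, norm_zero] at this
        · filter_upwards [hpoles] with t ht
          exact norm_pos_iff.2 (ht b)
      have h2 : Filter.Tendsto (fun t : ℂ => ‖(aeval t (A b) : ℂ)‖ * ‖(aeval t (B b) : ℂ)‖⁻¹)
          (nhdsWithin (c : ℂ) {(c : ℂ)}ᶜ) Filter.atTop :=
        (hcont (A b)).norm.pos_mul_atTop (norm_pos_iff.2 hAb) (tendsto_inv_nhdsGT_zero.comp h1)
      refine h2.congr fun t => ?_
      rw [norm_div, div_eq_mul_inv]

end Pool.Agent.LGO.ZF
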