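import Mathlib
import Pool.Agent.LGO.ZF.Asm
import Pool.Agent.LGO.ZF.Cm4
import Pool.Agent.LGO.ZF.CurD

/-!
# LGO/ZF: the Zilber-Pink statement for generic rational curves

To be completed with `curve_T1`, `curve_T2`, `curve_T3`.
-/

namespace Pool.Agent.LGO.ZF

open Polynomial UpperHalfPlane Pool.Agent.Hhelper14.ZP Pool.Agent.Hhelper14.ZPL Pool.Agent.ZPE

variable {n : ℕ} {A B : Fin n → Polynomial Qb}

theorem main_of (h : Gen A B) (hn : 0 < n) (h1 : T1 (curve A B)) (h2 : T2 (curve A B))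
    (h3 : T3 (curve A B)) : (Atyp (curve A B)).Finite ∧ FinAtypical (curve A B) := by
  have hf := atyp_finite h1 h2 h3 (curve_T4 h)
  exact ⟨hf, crit (curve_irred h.ne) (curve_dim h hn) hf⟩

end Pool.Agent.LGO.ZF
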