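import Mathlib
import Pool.Agent.LGO.ZF.Glue
import Pool.Agent.LGO.ZF.CurA
import Pool.Agent.LGO.ZF.CurB
import Pool.Agent.LGO.ZF.CurC
import Pool.Agent.LGO.ZF.CurD
import Pool.Agent.LGO.AXG.Gen

/-!
# LGO/ZF: the types 1, 2, 3 for generic rational curves, from the pair theorem
-/

namespace Pool.Agent.LGO.ZF

open Polynomial UpperHalfPlane Pool.Agent.Hhelper14.ZP Pool.Agent.Hhelper14.ZPL Pool.Agent.LGO
  Pool.Agent.LGO.U Pool.Agent.LGO.PWG

variable {n : ℕ} {A B : Fin n → Polynomial Qb}

theorem Gen.par' (h : Gen A B) (hn : 0 < n) : Par (curve A B) A B where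
  irr := curve_irred h.ne
  kcl := curve_kclosed h.ne
  dim := curve_dim h hn
  nc := curve_nc h
  nomod := fun _ _ hab g hg => curve_nomod h hab g hg
  cop := h.cop
  deg := fun i => h.nc i
  par := curve_par h

/-- two functions without a common pole: the first has a pole, which is not a pole of the second -/
theorem Gen.oneP (h : Gen A B) {a b : Fin n} (hab : a ≠ b) : OneP A B a b := by
  by_cases hB : (B a).natDegree = 0
  · refine Or.inr ⟨?_, ?_⟩
    · have := h.nc a
      rw [hB] at this ⊢
      rcases Nat.eq_zero_or_pos (A a).natDegree with h0 | h0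
      · rw [h0, Nat.max_self] at this
        omega
      · exact h0
    · by_contra hcon
      push Not at hcon
      have hlt : (B a).natDegree < (A a).natDegree := by
        have := h.nc a
        rw [hB] at this ⊢
        rcases Nat.eq_zero_or_pos (A a).natDegree with h0 | h0
        · rw [h0, Nat.max_self] at this
          omega
        · exact h0
      exact (h.nopole a b hab).2 ⟨hlt, hcon⟩
  · obtain ⟨c, hc⟩ := IsAlgClosed.exists_root (B a) (by
      rw [degree_eq_natDegree (h.ne a)]
      exact_mod_cast hB)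
    exact Or.inl ⟨c, hc, (h.nopole a b hab).1 c hc⟩

theorem curve_T1_of (h : Gen A B) (hP : PairAll) : T1 (curve A B) := by
  intro i hi
  have hn : 0 < n := (i 0).pos
  have h01 : i 0 ≠ i 1 := hi.ne (by decide)
  have h02 : i 0 ≠ i 2 := hi.ne (by decide)
  have h12 : i 1 ≠ i 2 := hi.ne (by decide)
  exact t1_of (h.par' hn) hP i hi (Or.inl (h.oneP h01)) (Or.inl (h.oneP h02)) (Or.inl (h.oneP h12))
    (AXG.atl_gen h (by omega) i hi)

theorem curve_T2_of (h : Gen A B) (hP : PairAll) : T2 (curve A B) := by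
  intro i hi
  have hn : 0 < n := (i 0).pos
  have h01 : i 0 ≠ i 1 := hi.ne (by decide)
  have h23 : i 2 ≠ i 3 := hi.ne (by decide)
  exact t2_of (h.par' hn) hP i hi (Or.inl (h.oneP h01)) (Or.inl (h.oneP h23))
    (AXG.atl_gen h (by omega) i hi)

theorem curve_T3_of (h : Gen A B) (hP : PairAll) : T3 (curve A B) := by
  intro i hi
  have hn : 0 < n := (i 0).pos
  have h01 : i 0 ≠ i 1 := hi.ne (by decide)
  exact t3_of (h.par' hn) hP i hi (Or.inl (h.oneP h01)) (AXG.atl_gen h (by omega) i hi)

end Pool.Agent.LGO.ZF
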